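import Pool.Agent.Helper68.Zp.Build

/-!
# An equivariant Borsuk-Ulam theorem with fixed poles
-/

set_option autoImplicit false

namespace Pool.Agent.Helper68.Zp

open Finsupp

/-! ## Arcs -/

/-- The number of the arc of a point. -/
noncomputable def arc (p : ℕ) (y : ℂ) : ℤ := ⌊y.arg * p / Real.pi⌋

theorem arc_mul {p : ℕ} (hp : 0 < p) {ω : ℂ}
    (hω : ω = Complex.exp (((2 * Real.pi / p : ℝ) : ℂ) * Complex.I)) (e : ℕ) {y : ℂ} (hy : y ≠ 0) :
    ∃ n : ℤ, arc p (ω ^ e * y) = arc p y + 2 * e + 2 * p * n := by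
  have hp' : (0 : ℝ) < p := by exact_mod_cast hp
  have h1 : ω ^ e = Complex.exp (((e * (2 * Real.pi / p) : ℝ) : ℂ) * Complex.I) := by
    rw [hω, ← Complex.exp_nat_mul]
    congr 1
    push_cast
    ring
  have h2 : ((ω ^ e * y).arg : Real.Angle) = ((e * (2 * Real.pi / p) + y.arg : ℝ) : Real.Angle) := by
    rw [Complex.arg_mul_coe_angle (by rw [h1]; exact Complex.exp_ne_zero _) hy,
      Real.Angle.coe_add, h1, Complex.arg_exp_mul_I, Real.Angle.coe_toIocMod]
  obtain ⟨n, hn⟩ := Real.Angle.angle_eq_iff_two_pi_dvd_sub.1 h2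
  refine ⟨n, ?_⟩
  have h3 : (ω ^ e * y).arg * p / Real.pi = y.arg * p / Real.pi + ((2 * e + 2 * p * n : ℤ) : ℝ) := by
    have h4 : (ω ^ e * y).arg = e * (2 * Real.pi / p) + y.arg + 2 * Real.pi * n := by linarith
    rw [h4]
    have := Real.pi_ne_zero
    push_cast
    field_simp
    ring
  rw [arc, h3, Int.floor_add_intCast, arc]
  ring

theorem arc_near {p : ℕ} (hp : 0 < p) : ∃ ρ : ℝ, 0 < ρ ∧ ∀ y y' : ℂ, y ≠ 0 → y' ≠ 0 →
    ‖y' - y‖ < ρ * ‖y‖ → arc p y % 2 = arc p y' % 2 →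
    ∃ n : ℤ, arc p y' = arc p y + 2 * p * n := by
  have hp' : (0 : ℝ) < p := by exact_mod_cast hp
  have hc : ContinuousAt Complex.arg 1 := Complex.continuousAt_arg (by simp)
  rw [Metric.continuousAt_iff] at hc
  obtain ⟨ρ, hρ, h⟩ := hc (Real.pi / p) (by positivity)
  refine ⟨ρ, hρ, fun y y' hy hy' hyy hpar => ?_⟩
  have hn : 0 < ‖y‖ := norm_pos_iff.2 hy
  have h1 : dist (y' / y) 1 < ρ := by
    rw [dist_eq_norm, div_sub_one hy, norm_div, div_lt_iff₀ hn]
    exact hyy
  have h2 := h h1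
  rw [Complex.arg_one, dist_zero_right, Real.norm_eq_abs] at h2
  have h3 : (y'.arg : Real.Angle) = (((y' / y).arg + y.arg : ℝ) : Real.Angle) := by
    rw [Real.Angle.coe_add, ← Complex.arg_mul_coe_angle (div_ne_zero hy' hy) hy,
      div_mul_cancel₀ _ hy]
  obtain ⟨n, hn'⟩ := Real.Angle.angle_eq_iff_two_pi_dvd_sub.1 h3
  refine ⟨n, ?_⟩
  set u := (y' / y).arg with hu
  have hpi := Real.pi_pos
  have h5 : |u * p / Real.pi| < 1 := by
    rw [abs_div, abs_mul, abs_of_pos hp', abs_of_pos hpi, div_lt_one hpi]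
    rwa [lt_div_iff₀ hp'] at h2
  have h6 : y'.arg * p / Real.pi = (y.arg * p / Real.pi + u * p / Real.pi) +
      ((2 * p * n : ℤ) : ℝ) := by
    have h4 : y'.arg = u + y.arg + 2 * Real.pi * n := by linarith
    rw [h4]
    push_cast
    field_simp
    ring
  have h7 : arc p y' = ⌊y.arg * p / Real.pi + u * p / Real.pi⌋ + 2 * p * n := by
    rw [arc, h6, Int.floor_add_intCast]
  rw [abs_lt] at h5
  have h8 : arc p y - 1 ≤ ⌊y.arg * p / Real.pi + u * p / Real.pi⌋ := by
    rw [Int.le_floor]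
    have := Int.floor_le (y.arg * p / Real.pi)
    rw [arc]
    push_cast
    linarith
  have h9 : ⌊y.arg * p / Real.pi + u * p / Real.pi⌋ ≤ arc p y + 1 := by
    rw [← Int.lt_add_one_iff, Int.floor_lt]
    have := Int.lt_floor_add_one (y.arg * p / Real.pi)
    rw [arc]
    push_cast
    linarith
  have h10 : (2 * (p : ℤ) * n) % 2 = 0 := by
    rw [mul_assoc]
    exact Int.mul_emod_right _ _
  rw [h7] at hpar ⊢
  generalize ⌊y.arg * p / Real.pi + u * p / Real.pi⌋ = a at *
  generalize 2 * (p : ℤ) * n = b at *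
  omega

/-! ## The sets -/

/-- The space of the pairs `(s, w)`. -/
abbrev Esp (d : ℕ) : Type := ℝ × (Fin (d + 1) → ℂ)

/-- The rotation. -/
noncomputable def rot (d : ℕ) (ω : ℂ) (x : Esp d) : Esp d := (x.1, ω • x.2)

theorem rot_iter (d : ℕ) (ω : ℂ) (j : ℕ) (x : Esp d) : (rot d ω)^[j] x = (x.1, ω ^ j • x.2) := by
  induction j with
  | zero => simp
  | succ j ih =>
    rw [Function.iterate_succ_apply', ih, rot, smul_smul, pow_succ']

/-- The apexes. -/
noncomputable def apex (d i : ℕ) : Esp d := (0, fun k => if (k : ℕ) = i / 2 then 1 else 0)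

/-- The invariant. -/
def Inv (d : ℕ) (ω : ℂ) (i : ℕ) (w : Fin (d + 1) → ℂ) : Prop :=
  (∀ k : Fin (d + 1), i / 2 < (k : ℕ) → w k = 0) ∧ w ≠ 0 ∧
    (i % 2 = 0 → ∀ k : Fin (d + 1), (k : ℕ) = i / 2 → ∃ (j : ℕ) (r : ℝ), 0 ≤ r ∧ w k = r * ω ^ j)

theorem inv_smul {d : ℕ} {ω : ℂ} (hω : ω ≠ 0) {i : ℕ} {w : Fin (d + 1) → ℂ} (h : Inv d ω i w)
    (j : ℕ) : Inv d ω i (ω ^ j • w) := by
  obtain ⟨h1, h2, h3⟩ := h
  refine ⟨fun k hk => by simp [h1 k hk], smul_ne_zero (pow_ne_zero _ hω) h2, fun hi k hk => ?_⟩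
  obtain ⟨l, r, hr, hl⟩ := h3 hi k hk
  refine ⟨j + l, r, hr, ?_⟩
  rw [Pi.smul_apply, smul_eq_mul, hl, pow_add]
  ring

theorem inv_all {d p : ℕ} (hp : Odd p) {ω : ℂ} (hω : ω ^ p = 1) (i : ℕ)
    (hi : i ≤ 2 * d) (x : Esp d) (hx : x ∈ Xt p (rot d ω) (apex d) i) :
    x.1 = 0 ∧ Inv d ω i x.2 := by
  have hω0 : ω ≠ 0 := by
    rintro rfl
    rw [zero_pow hp.pos.ne'] at hω
    exact zero_ne_one hω
  have orbit : ∀ i, (∀ x ∈ St p (rot d ω) (apex d) i, x.1 = 0 ∧ Inv d ω i x.2) →
      ∀ x ∈ Xt p (rot d ω) (apex d) i, x.1 = 0 ∧ Inv d ω i x.2 := by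
    intro i h x hx
    rw [Xt, orb, Set.mem_iUnion₂] at hx
    obtain ⟨j, _, y, hy, rfl⟩ := hx
    rw [rot_iter]
    exact ⟨(h y hy).1, inv_smul hω0 (h y hy).2 j⟩
  induction i generalizing x with
  | zero =>
    refine orbit 0 ?_ x hx
    intro x hx
    have hx' : x = apex d 0 := hx
    subst hx'
    refine ⟨rfl, ?_, ?_, ?_⟩
    · intro k hk
      simp only [apex]
      rw [if_neg (by omega)]
    · intro h0
      have := congrFun h0 0
      simp [apex] at this
    · intro _ k hk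
      refine ⟨0, 1, zero_le_one, ?_⟩
      simp only [apex]
      rw [if_pos hk]
      simp
  | succ i ih =>
    refine orbit (i + 1) ?_ x hx
    rintro _ ⟨⟨y, t⟩, ⟨hy, ht⟩, rfl⟩
    simp only at hy ht ⊢
    obtain ⟨hy1, h1, h2, h3⟩ := ih (by omega) y hy
    have hval : ∀ k : Fin (d + 1), ((1 - t) • y + t • apex d (i + 1)).2 k =
        (1 - t) * y.2 k + t * (if (k : ℕ) = (i + 1) / 2 then 1 else 0) := by
      intro k
      simp [apex]
    refine ⟨by simp [hy1, apex], ?_, ?_, ?_⟩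
    · intro k hk
      rw [hval, h1 k (by omega), if_neg (by omega)]
      simp
    · intro h0
      have hk : ∀ k : Fin (d + 1), (1 - t) * y.2 k +
          t * (if (k : ℕ) = (i + 1) / 2 then 1 else 0) = (0 : ℂ) := by
        intro k
        rw [← hval, h0]
        rfl
      obtain ⟨k₀, hk₀⟩ : ∃ k₀ : Fin (d + 1), (k₀ : ℕ) = (i + 1) / 2 := ⟨⟨(i + 1) / 2, by omega⟩, rfl⟩
      have h4 := hk k₀
      rw [if_pos hk₀, mul_one] at h4
      have ht0 : t = 0 := by
        rcases Nat.mod_two_eq_zero_or_one i with hi2 | hi2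
        · obtain ⟨j, r, hr, hj⟩ := h3 hi2 k₀ (by omega)
          rw [hj] at h4
          by_contra htne
          have ht0 : 0 < t := lt_of_le_of_ne ht.1 (Ne.symm htne)
          have h5 : ((1 - t) * r : ℝ) * ω ^ j = ((-t : ℝ) : ℂ) := by
            push_cast
            linear_combination h4
          have h6 := congrArg (fun z : ℂ => z ^ p) h5
          rw [mul_pow, ← pow_mul, mul_comm j p, pow_mul, hω, one_pow, mul_one, ← Complex.ofReal_pow,
            ← Complex.ofReal_pow, Complex.ofReal_inj, hp.neg_pow] at h6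
          have h7 : 0 ≤ ((1 - t) * r) ^ p := by
            have : 0 ≤ 1 - t := by linarith [ht.2]
            positivity
          have h8 : 0 < t ^ p := by positivity
          linarith
        · rw [h1 k₀ (by omega), mul_zero, zero_add] at h4
          exact_mod_cast h4
      apply h2
      funext k
      have h5 := hk k
      rw [ht0] at h5
      simpa using h5
    · intro hi2 k hk
      rw [hval, if_pos hk, h1 k (by omega)]
      refine ⟨0, t, ht.1, ?_⟩
      simp

/-! ## The labels -/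

open Classical in
/-- The choice of an element of a set. -/
noncomputable def sel {κ : Type*} (s : Set κ) : Option κ :=
  if h : s.Nonempty then some h.some else none

theorem sel_some {κ : Type*} {s : Set κ} {k : κ} (h : sel s = some k) : k ∈ s := by
  unfold sel at h
  split_ifs at h with h1
  rw [Option.some.injEq] at h
  rw [← h]
  exact h1.some_mem

theorem sel_none {κ : Type*} {s : Set κ} (h : sel s = none) : s = ∅ := by
  unfold sel at h
  split_ifs at h with h1
  exact Set.not_nonempty_iff_eq_empty.1 h1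

/-- The label of a nonzero number. -/
noncomputable def cl {p d : ℕ} [Fact p.Prime] (e : Fin d → ℕ) (k : Fin d) (y : ℂ) :
    Lab p (Fin d × Bool) :=
  .inr ((k, decide (arc p y % 2 = 0)), (arc p y : ZMod p) / (2 * (e k : ZMod p)))

open Classical in
/-- The label of a point. -/
noncomputable def labf {p d : ℕ} [Fact p.Prime] {E : Type*} (e : Fin d → ℕ) (c₀ : E → ℝ) (cc : Fin d → E → ℂ)
    (δ : ℝ) (x : E) : Lab p (Fin d × Bool) :=
  if δ < c₀ x then .inl true else if c₀ x < -δ then .inl false else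
    match sel {k | δ < ‖cc k x‖} with
    | Option.none => .inl false
    | Option.some k => cl e k (cc k x)

theorem cl_mul {p d : ℕ} [Fact p.Prime] (hp2 : p ≠ 2) {ω : ℂ}
    (hω : ω = Complex.exp (((2 * Real.pi / p : ℝ) : ℂ) * Complex.I)) (e : Fin d → ℕ)
    (he : ∀ k, ¬ p ∣ e k) (k : Fin d) {y : ℂ} (hy : y ≠ 0) :
    cl (p := p) e k (ω ^ e k * y) = sh 1 (cl e k y) := by
  obtain ⟨n, hn⟩ := arc_mul (Fact.out : p.Prime).pos hω (e k) hy
  have h2 : (2 : ZMod p) ≠ 0 := (two_unit hp2).ne_zero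
  have h3 : (e k : ZMod p) ≠ 0 := by
    rw [Ne, ZMod.natCast_eq_zero_iff]
    exact he k
  unfold cl sh
  rw [hn]
  have h4 : (arc p y + 2 * (e k : ℤ) + 2 * p * n) % 2 = arc p y % 2 := by
    have h5 : (2 * (p : ℤ) * n) = 2 * (p * n) := by ring
    rw [h5]
    omega
  rw [h4]
  congr 2
  push_cast
  rw [ZMod.natCast_self]
  field_simp
  ring

theorem norm_root {p : ℕ} {ω : ℂ}
    (hω : ω = Complex.exp (((2 * Real.pi / p : ℝ) : ℂ) * Complex.I)) : ‖ω‖ = 1 := by
  rw [hω]
  exact Complex.norm_exp_ofReal_mul_I _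

theorem root_pow {p : ℕ} (hp : 0 < p) {ω : ℂ}
    (hω : ω = Complex.exp (((2 * Real.pi / p : ℝ) : ℂ) * Complex.I)) : ω ^ p = 1 := by
  have hp' : (p : ℂ) ≠ 0 := by exact_mod_cast hp.ne'
  rw [hω, ← Complex.exp_nat_mul]
  have : (p : ℂ) * (((2 * Real.pi / p : ℝ) : ℂ) * Complex.I) = 2 * Real.pi * Complex.I := by
    push_cast
    field_simp
  rw [this, Complex.exp_two_pi_mul_I]

/-- **An equivariant Borsuk-Ulam theorem.** -/
theorem borsuk_ulam_poles {p d : ℕ} [Fact p.Prime] (hp : 2 * d + 2 < p) {ω : ℂ}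
    (hω : ω = Complex.exp (((2 * Real.pi / p : ℝ) : ℂ) * Complex.I)) {e : Fin d → ℕ}
    (he : ∀ k, ¬ p ∣ e k) (c₀ : Esp d → ℝ) (cc : Fin d → Esp d → ℂ) (hc₀ : Continuous c₀)
    (hcc : ∀ k, Continuous (cc k)) (h0 : ∀ s w, c₀ (s, ω • w) = c₀ (s, w))
    (hk : ∀ k s w, cc k (s, ω • w) = ω ^ e k * cc k (s, w)) (htop : 0 < c₀ (1, 0))
    (hbase : ∀ w, w ≠ 0 → c₀ (0, w) < 0) :
    ∃ x : Esp d, x ≠ 0 ∧ c₀ x = 0 ∧ ∀ k, cc k x = 0 := by
  by_contra hcon
  push Not at hcon
  have hp0 : 0 < p := (Fact.out : p.Prime).pos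
  have hp2 : p ≠ 2 := by omega
  have hodd : Odd p := (Fact.out : p.Prime).odd_of_ne_two hp2
  have hnω := norm_root hω
  have hωp := root_pow hp0 hω
  set g := rot d ω with hg
  have hgp : g^[p] = id := by
    funext x
    rw [hg, rot_iter, hωp, one_smul]
    rfl
  have hgd : ∀ x y, dist (g x) (g y) = dist x y := by
    intro x y
    simp only [hg, rot, Prod.dist_eq]
    congr 1
    rw [dist_smul₀, hnω, one_mul]
  have hgc : Continuous g := (Isometry.of_dist_eq hgd).continuous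
  have hlin : ∀ (a b : ℝ) (x y : Esp d), g (a • x + b • y) = a • g x + b • g y := by
    intro a b x y
    refine Prod.ext rfl ?_
    simp only [hg, rot, Prod.snd_add, Prod.smul_snd, smul_add]
    rw [smul_comm ω a, smul_comm ω b]
  have hgt : g ((1, 0) : Esp d) = (1, 0) := by simp [hg, rot]
  set X := Xt p g (apex d) (2 * d) with hX
  set Z := Zt p g (apex d) ((1, 0) : Esp d) (2 * d) with hZ
  have hXc : IsCompact X := isCompact_orb hgc (isCompact_St hgc _)
  have hZc : IsCompact Z := isCompact_J _ hXc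
  have hXinv : ∀ x ∈ X, x.1 = 0 ∧ Inv d ω (2 * d) x.2 := inv_all hodd hωp (2 * d) le_rfl
  have hXne : X.Nonempty := ⟨_, St_subset hp0 _ (mem_St hp0 _)⟩
  have hZne : Z.Nonempty := ⟨_, mem_J _ hXne⟩
  have hZ0 : ∀ x ∈ Z, x ≠ 0 := by
    rintro _ ⟨⟨y, t⟩, ⟨hy, _⟩, rfl⟩ h0
    simp only at hy h0
    obtain ⟨hy1, -, hy2, -⟩ := hXinv y hy
    have h1 := congrArg Prod.fst h0
    have h2 := congrArg Prod.snd h0
    simp only [Prod.fst_add, Prod.smul_fst, hy1, smul_zero, mul_zero, zero_add, Prod.fst_zero,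
      smul_eq_mul, mul_one, Prod.snd_add, Prod.smul_snd, add_zero, Prod.snd_zero] at h1 h2
    rw [h1, sub_zero, one_smul] at h2
    exact hy2 h2
  set F : Esp d → ℝ × (Fin d → ℂ) := fun x => (c₀ x, fun k => cc k x) with hF
  have hFc : Continuous F := hc₀.prodMk (continuous_pi hcc)
  have hF0 : ∀ x ∈ Z, F x ≠ 0 := by
    intro x hx h
    have h1 : c₀ x = 0 := congrArg Prod.fst h
    obtain ⟨k, hk'⟩ := hcon x (hZ0 x hx) h1
    exact hk' (congrFun (congrArg Prod.snd h) k)
  obtain ⟨z₀, hz₀, hmin⟩ := hZc.exists_isMinOn hZne hFc.norm.continuousOn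
  have hμ : 0 < ‖F z₀‖ := norm_pos_iff.2 (hF0 z₀ hz₀)
  obtain ⟨x₀, hx₀, hmax⟩ := hXc.exists_isMaxOn hXne hc₀.continuousOn
  have hν : c₀ x₀ < 0 := by
    obtain ⟨h1, -, h2, -⟩ := hXinv x₀ hx₀
    have h3 : x₀ = (0, x₀.2) := Prod.ext h1 rfl
    rw [h3]
    exact hbase x₀.2 h2
  obtain ⟨δ, hδ0, hδ⟩ := exists_between (lt_min hμ (lt_min (neg_pos.2 hν) htop))
  rw [lt_min_iff, lt_min_iff] at hδ
  obtain ⟨hδ1, hδ2, hδ3⟩ := hδ
  obtain ⟨ρ, hρ, hnear⟩ := arc_near hp0
  obtain ⟨η, hη, hunif⟩ := Metric.uniformContinuousOn_iff.1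
    (hZc.uniformContinuousOn_of_continuous hFc.continuousOn) (min δ (δ * ρ))
    (lt_min hδ0 (mul_pos hδ0 hρ))
  have hrot : ∀ x : Esp d, g x = (x.1, ω • x.2) := fun x => rfl
  refine labelling (p := p) (T := Fin d × Bool) (g := g) (c := apex d) (top := ((1, 0) : Esp d))
    (η := η / 2) ?_ hgp hgd hlin hgt (labf e c₀ cc δ) ?_ ?_ ?_ (by positivity) ?_
  · simp only [Fintype.card_prod, Fintype.card_fin, Fintype.card_bool]
    omega
  · intro x
    have h1 : c₀ (g x) = c₀ x := h0 x.1 x.2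
    have h2 : ∀ k, cc k (g x) = ω ^ e k * cc k x := fun k => hk k x.1 x.2
    have h3 : {k | δ < ‖cc k (g x)‖} = {k | δ < ‖cc k x‖} := by
      ext k
      simp [h2, hnω]
    unfold labf
    rw [h1, h3]
    split_ifs
    · rfl
    · rfl
    · cases hs : sel {k | δ < ‖cc k x‖} with
      | none => rfl
      | some k =>
        simp only
        rw [h2]
        refine cl_mul hp2 hω e he k ?_
        have := sel_some hs
        exact norm_pos_iff.1 (hδ0.trans this)
  · rw [labf, if_pos hδ3]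
  · intro x hx
    have h1 : c₀ x ≤ c₀ x₀ := by
      refine hmax ?_
      simp only [Fintype.card_prod, Fintype.card_fin, Fintype.card_bool] at hx
      rw [mul_comm] at hx
      exact hx
    rw [labf, if_neg (by linarith), if_pos (by linarith)]
  · intro x hx y hy hxy
    have hx' : x ∈ Z := by
      simp only [Fintype.card_prod, Fintype.card_fin, Fintype.card_bool] at hx
      rw [mul_comm] at hx
      exact hx
    have hy' : y ∈ Z := by
      simp only [Fintype.card_prod, Fintype.card_fin, Fintype.card_bool] at hy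
      rw [mul_comm] at hy
      exact hy
    have h1 := hunif x hx' y hy' (by linarith)
    rw [Prod.dist_eq, max_lt_iff, lt_min_iff, lt_min_iff] at h1
    obtain ⟨⟨h2, -⟩, h3, h4⟩ := h1
    simp only [hF] at h2 h3 h4
    rw [Real.dist_eq, abs_lt] at h2
    have h5 : ∀ k, ‖cc k y - cc k x‖ < δ * ρ := by
      intro k
      have := dist_le_pi_dist (fun k => cc k y) (fun k => cc k x) k
      rw [dist_comm (fun k => cc k y)] at this
      rw [← dist_eq_norm]
      exact this.trans_lt h4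
    have hex : ∀ z ∈ Z, ¬ δ < c₀ z → ¬ c₀ z < -δ → ∃ k, sel {k | δ < ‖cc k z‖} = some k ∧
        δ < ‖cc k z‖ := by
      intro z hz hz1 hz2
      cases hs : sel {k | δ < ‖cc k z‖} with
      | some k =>
        have h6 : k ∈ {k | δ < ‖cc k z‖} := sel_some hs
        exact ⟨k, rfl, h6⟩
      | none =>
        exfalso
        have h6 : ∀ k, ‖cc k z‖ ≤ δ := by
          intro k
          by_contra hk'
          have : k ∈ ({k | δ < ‖cc k z‖} : Set (Fin d)) := not_le.1 hk'
          rw [sel_none hs] at this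
          exact this
        have h7 : ‖F z‖ ≤ δ := by
          rw [hF, Prod.norm_def]
          refine max_le ?_ ?_
          · rw [Real.norm_eq_abs, abs_le]
            exact ⟨by linarith, by linarith⟩
          · exact (pi_norm_le_iff_of_nonneg hδ0.le).2 h6
        have h8 : ‖F z₀‖ ≤ ‖F z‖ := hmin hz
        linarith
    unfold labf
    by_cases hx1 : δ < c₀ x
    · rw [if_pos hx1]
      by_cases hy1 : δ < c₀ y
      · rw [if_pos hy1]
        rfl
      · rw [if_neg hy1]
        by_cases hy2 : c₀ y < -δ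
        · exfalso
          linarith
        · obtain ⟨k, hk1, hk2⟩ := hex y hy' hy1 hy2
          rw [if_neg hy2, hk1]
          trivial
    · by_cases hx2 : c₀ x < -δ
      · rw [if_neg hx1, if_pos hx2]
        by_cases hy1 : δ < c₀ y
        · exfalso
          linarith
        · by_cases hy2 : c₀ y < -δ
          · rw [if_neg hy1, if_pos hy2]
            rfl
          · obtain ⟨k, hk1, hk2⟩ := hex y hy' hy1 hy2
            rw [if_neg hy1, if_neg hy2, hk1]
            trivial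
      · obtain ⟨k, hk1, hk2⟩ := hex x hx' hx1 hx2
        rw [if_neg hx1, if_neg hx2, hk1]
        by_cases hy1 : δ < c₀ y
        · rw [if_pos hy1]
          trivial
        · by_cases hy2 : c₀ y < -δ
          · rw [if_neg hy1, if_pos hy2]
            trivial
          · obtain ⟨l, hl1, hl2⟩ := hex y hy' hy1 hy2
            rw [if_neg hy1, if_neg hy2, hl1]
            intro hkl
            rw [Prod.mk.injEq] at hkl
            obtain ⟨rfl, hpar⟩ := hkl
            have hpar' : arc p (cc k x) % 2 = arc p (cc k y) % 2 := by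
              rw [decide_eq_decide] at hpar
              omega
            obtain ⟨n, hn⟩ := hnear (cc k x) (cc k y) (norm_pos_iff.1 (hδ0.trans hk2))
              (norm_pos_iff.1 (hδ0.trans hl2))
              ((h5 k).trans_le (by rw [mul_comm]; exact mul_le_mul_of_nonneg_left hk2.le hρ.le)) hpar'
            rw [hn]
            push_cast
            rw [ZMod.natCast_self]
            simp

end Pool.Agent.Helper68.Zp
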