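import Pool.Agent.Helper68.Zp.Core

/-!
# Building the chains, and the labelling theorem
-/

set_option autoImplicit false

namespace Pool.Agent.Helper68.Zp

open Finsupp

section algebra

variable {k : Type*} [CommRing k] {α : Type*} {p : ℕ}

theorem opT_sub (g : α → α) (i : ℕ) (z w : Ch k α) : opT p g i (z - w) = opT p g i z - opT p g i w := by
  unfold opT
  split_ifs
  · rw [map_sub]; abel
  · simp [Finset.sum_sub_distrib]

theorem d_opT (g : α → α) (i : ℕ) (z : Ch k α) : d (opT p g i z) = opT p g i (d z) := by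
  unfold opT
  split_ifs
  · rw [map_sub, d_mp]
  · rw [map_sum]
    exact Finset.sum_congr rfl fun j _ => d_mp _ _

theorem opT_opT {g : α → α} (hg : g^[p] = id) (i : ℕ) (z : Ch k α) :
    opT p g (i + 1) (opT p g i z) = 0 := by
  have h1 : ∀ j : ℕ, mp g (mp (g^[j]) z) = mp (g^[j + 1]) z := by
    intro j
    rw [mp_mp, Function.iterate_succ']
  have h2 : ∀ j : ℕ, mp (g^[j]) (mp g z) = mp (g^[j + 1]) z := by
    intro j
    rw [mp_mp, Function.iterate_succ]
  have h3 : ∑ j ∈ Finset.range p, (mp (g^[j + 1]) z - mp (g^[j]) z) = 0 := by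
    rw [Finset.sum_range_sub (fun j => mp (g^[j]) z), hg, Function.iterate_zero, sub_self]
  unfold opT
  rcases Nat.mod_two_eq_zero_or_one i with h0 | h0
  · rw [if_pos (by omega), if_neg (by omega), map_sum, ← Finset.sum_sub_distrib]
    simp only [h1]
    exact h3
  · rw [if_neg (by omega), if_pos h0]
    simp only [map_sub, h2]
    exact h3

end algebra

section geometry

variable {E : Type*} [NormedAddCommGroup E] [NormedSpace ℝ E]

/-- The join of a set with a point. -/
def J (c : E) (X : Set E) : Set E :=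
  (fun q : E × ℝ => (1 - q.2) • q.1 + q.2 • c) '' (X ×ˢ Set.Icc 0 1)

theorem subset_J (c : E) (X : Set E) : X ⊆ J c X := fun x hx =>
  ⟨(x, 0), ⟨hx, by simp⟩, by simp⟩

theorem mem_J (c : E) {X : Set E} (hX : X.Nonempty) : c ∈ J c X := by
  obtain ⟨x, hx⟩ := hX
  exact ⟨(x, 1), ⟨hx, by simp⟩, by simp⟩

theorem J_mono (c : E) {X Y : Set E} (h : X ⊆ Y) : J c X ⊆ J c Y :=
  Set.image_mono (Set.prod_mono h le_rfl)

theorem isCompact_J (c : E) {X : Set E} (hX : IsCompact X) : IsCompact (J c X) :=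
  (hX.prod isCompact_Icc).image (by fun_prop)

theorem starConvex_J (c : E) (X : Set E) : StarConvex ℝ c (J c X) := by
  rintro _ ⟨⟨x, t⟩, ⟨hx, ht⟩, rfl⟩ a b ha hb hab
  simp only at hx ht ⊢
  refine ⟨(x, a + b * t), ⟨hx, ?_, ?_⟩, ?_⟩
  · have := mul_nonneg hb ht.1
    exact add_nonneg ha this
  · have := mul_le_mul_of_nonneg_left ht.2 hb
    simp only
    linarith
  · simp only [smul_add, smul_smul]
    have h1 : 1 - (a + b * t) = b * (1 - t) := by linear_combination -hab
    rw [h1, add_smul]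
    abel

variable {p : ℕ}

/-- The orbit of a set. -/
def orb (p : ℕ) (g : E → E) (S : Set E) : Set E := ⋃ j ∈ Finset.range p, g^[j] '' S

theorem subset_orb (hp : 0 < p) (g : E → E) (S : Set E) : S ⊆ orb p g S := fun x hx => by
  rw [orb, Set.mem_iUnion₂]
  exact ⟨0, Finset.mem_range.2 hp, x, hx, rfl⟩

theorem mapsTo_orb {g : E → E} (hg : g^[p] = id) (S : Set E) :
    Set.MapsTo g (orb p g S) (orb p g S) := by
  intro x hx
  rw [orb, Set.mem_iUnion₂] at hx ⊢
  obtain ⟨j, hj, y, hy, rfl⟩ := hx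
  have hj' := Finset.mem_range.1 hj
  by_cases h : j + 1 < p
  · exact ⟨j + 1, Finset.mem_range.2 h, y, hy, Function.iterate_succ_apply' g j y⟩
  · refine ⟨0, Finset.mem_range.2 (by omega), y, hy, ?_⟩
    have h2 : j + 1 = p := by omega
    rw [← Function.iterate_succ_apply' g j y, Nat.succ_eq_add_one, h2, hg]
    rfl

theorem isCompact_orb {g : E → E} (hg : Continuous g) {S : Set E} (hS : IsCompact S) :
    IsCompact (orb p g S) := by
  rw [orb]
  exact Finset.isCompact_biUnion _ fun j _ => hS.image (hg.iterate j)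

/-- The sets which carry the chains. -/
def St (p : ℕ) (g : E → E) (c : ℕ → E) : ℕ → Set E
  | 0 => {c 0}
  | i + 1 => J (c (i + 1)) (orb p g (St p g c i))

/-- Their orbits. -/
def Xt (p : ℕ) (g : E → E) (c : ℕ → E) (i : ℕ) : Set E := orb p g (St p g c i)

/-- The cones. -/
def Zt (p : ℕ) (g : E → E) (c : ℕ → E) (top : E) (i : ℕ) : Set E := J top (Xt p g c i)

variable {g : E → E} {c : ℕ → E} {top : E}

theorem St_subset (hp : 0 < p) (i : ℕ) : St p g c i ⊆ Xt p g c i := subset_orb hp _ _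

theorem Xt_subset (i : ℕ) : Xt p g c i ⊆ St p g c (i + 1) := subset_J _ _

theorem Xt_mono (hp : 0 < p) {i j : ℕ} (hij : i ≤ j) : Xt p g c i ⊆ Xt p g c j := by
  induction hij with
  | refl => exact le_rfl
  | step _ ih => exact ih.trans ((Xt_subset _).trans (St_subset hp _))

theorem mem_St (hp : 0 < p) (i : ℕ) : c i ∈ St p g c i := by
  induction i with
  | zero => exact rfl
  | succ i ih => exact mem_J _ ⟨_, St_subset hp i ih⟩

theorem isCompact_St (hg : Continuous g) (i : ℕ) : IsCompact (St p g c i) := by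
  induction i with
  | zero => exact isCompact_singleton
  | succ i ih => exact isCompact_J _ (isCompact_orb hg ih)

theorem starConvex_St (i : ℕ) : StarConvex ℝ (c i) (St p g c i) := by
  cases i with
  | zero => exact starConvex_singleton _
  | succ i => exact starConvex_J _ _

end geometry

section build

variable {E : Type*} [NormedAddCommGroup E] [NormedSpace ℝ E] {k : Type*} [CommRing k]

open Classical in
/-- A filling. -/
noncomputable def fil (S : Set E) (ε : ℝ) (n : ℕ) (z : Ch k E) : Ch k E :=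
  if h : ∃ w ∈ Sp k (Good S ε n), d w = z then h.choose else 0

theorem fil_spec {S : Set E} {ε : ℝ} {n : ℕ} {z : Ch k E}
    (h : ∃ w ∈ Sp k (Good S ε n), d w = z) :
    fil S ε n z ∈ Sp k (Good S ε n) ∧ d (fil S ε n z) = z := by
  rw [fil, dif_pos h]
  exact h.choose_spec

variable (p : ℕ) (g : E → E) (c : ℕ → E) (top : E) (η : ℝ)

/-- The chains in the base. -/
noncomputable def Et (k : Type*) [CommRing k] : ℕ → Ch k E
  | 0 => single [c 0] 1
  | i + 1 => fil (St p g c (i + 1)) ((i + 1 : ℕ) * η) (i + 2) (opT p g (i + 1) (Et k i))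

/-- The chains in the cone. -/
noncomputable def At (k : Type*) [CommRing k] : ℕ → Ch k E
  | 0 => fil (Zt p g c top 0) ((1 : ℕ) * η) 2 (Et p g c η k 0 - single [top] 1)
  | i + 1 => fil (Zt p g c top (i + 1)) ((i + 2 : ℕ) * η) (i + 3)
      (Et p g c η k (i + 1) - opT p g (i + 1) (At k i))

variable {p g c top η}

theorem opT_mem {X : Set E} (hgX : Set.MapsTo g X X) (hd : ∀ x y, dist (g x) (g y) = dist x y)
    (i : ℕ) {ε : ℝ} {n : ℕ} {z : Ch k E} (hz : z ∈ Sp k (Good X ε n)) :
    opT p g i z ∈ Sp k (Good X ε n) := by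
  have hd' : ∀ j x y, dist (g^[j] x) (g^[j] y) = dist x y := by
    intro j
    induction j with
    | zero => intro x y; rfl
    | succ j ih => intro x y; rw [Function.iterate_succ_apply', Function.iterate_succ_apply', hd, ih]
  unfold opT
  split_ifs
  · exact Submodule.sub_mem _ (mp_mem hgX (fun x _ y _ h => by rw [hd]; exact h) hz) hz
  · exact Submodule.sum_mem _ fun j _ =>
      mp_mem (hgX.iterate j) (fun x _ y _ h => by rw [hd']; exact h) hz

theorem Sp_mono {S S' : Set E} {ε ε' : ℝ} {n : ℕ} (h : S ⊆ S') (h' : ε ≤ ε') {z : Ch k E}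
    (hz : z ∈ Sp k (Good S ε n)) : z ∈ Sp k (Good S' ε' n) :=
  Finsupp.supported_mono (Good.mono h h' n) hz

theorem exists_fill {S : Set E} {x : E} (hS : StarConvex ℝ x S) (hx : x ∈ S) (hc : IsCompact S)
    {ε : ℝ} (hε : 0 ≤ ε) (hη : 0 < η) {n : ℕ} {z : Ch k E} (hz : z ∈ Sp k (Good S ε n))
    (hdz : d z = 0) : ∃ w ∈ Sp k (Good S (ε + η) (n + 1)), d w = z := by
  obtain ⟨D, hD⟩ := hc.isBounded.subset_closedBall x
  exact contract hS hx (D := D) (fun y hy => hD hy) hε hη hz hdz

variable (hp : 0 < p) (hgp : g^[p] = id) (hg : ∀ x y, dist (g x) (g y) = dist x y) (hη : 0 < η)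

include hp hgp hg hη in
theorem Et_spec (i : ℕ) : Et p g c η k i ∈ Sp k (Good (St p g c i) (i * η) (i + 1)) ∧
    d (Et p g c η k (i + 1)) = opT p g (i + 1) (Et p g c η k i) := by
  have hgc : Continuous g := (Isometry.of_dist_eq hg).continuous
  have step : ∀ i, Et p g c η k i ∈ Sp k (Good (St p g c i) (i * η) (i + 1)) →
      opT p g (i + 1) (d (Et p g c η k i)) = 0 →
      Et p g c η k (i + 1) ∈ Sp k (Good (St p g c (i + 1)) ((i + 1 : ℕ) * η) (i + 2)) ∧
      d (Et p g c η k (i + 1)) = opT p g (i + 1) (Et p g c η k i) := by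
    intro i h1 h2
    rw [Et]
    apply fil_spec
    have h3 : opT p g (i + 1) (Et p g c η k i) ∈ Sp k (Good (St p g c (i + 1)) (i * η) (i + 1)) := by
      refine Sp_mono (Xt_subset i) le_rfl (opT_mem (mapsTo_orb hgp _) hg _ ?_)
      exact Sp_mono (St_subset hp i) le_rfl h1
    have h4 := exists_fill (starConvex_St (i + 1)) (mem_St hp (i + 1)) (isCompact_St hgc (i + 1))
      (by positivity) hη h3 (by rw [d_opT, h2])
    have h5 : (i : ℝ) * η + η = ((i + 1 : ℕ) : ℝ) * η := by push_cast; ring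
    rw [h5] at h4
    exact h4
  have all : ∀ i, Et p g c η k i ∈ Sp k (Good (St p g c i) (i * η) (i + 1)) ∧
      opT p g (i + 1) (d (Et p g c η k i)) = 0 := by
    intro i
    induction i with
    | zero =>
      constructor
      · rw [Et]
        apply single_mem'
        refine ⟨?_, ?_, rfl⟩
        · intro x hx
          rw [List.mem_singleton.1 hx]
          exact rfl
        · intro x hx y hy
          rw [List.mem_singleton.1 hx, List.mem_singleton.1 hy, dist_self]
          simp
      · rw [Et, d_single]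
        simp [dl, opT]
    | succ i ih =>
      obtain ⟨h1, h2⟩ := step i ih.1 ih.2
      refine ⟨h1, ?_⟩
      rw [h2]
      exact opT_opT hgp _ _
  exact ⟨(all i).1, (step i (all i).1 (all i).2).2⟩

include hp hgp hg hη in
theorem At_spec (hlin : ∀ (a b : ℝ) (x y : E), g (a • x + b • y) = a • g x + b • g y)
    (htop : g top = top) (i : ℕ) :
    At p g c top η k i ∈ Sp k (Good (Zt p g c top i) ((i + 1 : ℕ) * η) (i + 2)) ∧
    d (At p g c top η k 0) = Et p g c η k 0 - single [top] 1 ∧
    d (At p g c top η k (i + 1)) =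
      Et p g c η k (i + 1) - opT p g (i + 1) (At p g c top η k i) := by
  have hgc : Continuous g := (Isometry.of_dist_eq hg).continuous
  have hXn : ∀ i, (Xt p g c i).Nonempty := fun i => ⟨_, St_subset hp i (mem_St hp i)⟩
  have hZc : ∀ i, IsCompact (Zt p g c top i) := fun i =>
    isCompact_J _ (isCompact_orb hgc (isCompact_St hgc i))
  have hZm : ∀ i, Set.MapsTo g (Zt p g c top i) (Zt p g c top i) := by
    rintro i _ ⟨⟨x, t⟩, ⟨hx, ht⟩, rfl⟩
    refine ⟨(g x, t), ⟨mapsTo_orb hgp _ hx, ht⟩, ?_⟩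
    simp only
    rw [hlin, htop]
  have hZs : ∀ i, Zt p g c top i ⊆ Zt p g c top (i + 1) := fun i =>
    J_mono _ (Xt_mono hp (Nat.le_succ i))
  have hXZ : ∀ i, St p g c i ⊆ Zt p g c top i := fun i => (St_subset hp i).trans (subset_J _ _)
  have hfill : ∀ i {ε : ℝ} (_ : 0 ≤ ε) {n : ℕ} {z : Ch k E} (_ : z ∈ Sp k (Good (Zt p g c top i) ε n))
      (_ : d z = 0), ∃ w ∈ Sp k (Good (Zt p g c top i) (ε + η) (n + 1)), d w = z := by
    intro i ε hε n z hz hdz
    exact exists_fill (starConvex_J _ _) (mem_J _ (hXn i)) (hZc i) hε hη hz hdz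
  have h0 : At p g c top η k 0 ∈ Sp k (Good (Zt p g c top 0) ((1 : ℕ) * η) 2) ∧
      d (At p g c top η k 0) = Et p g c η k 0 - single [top] 1 := by
    rw [At]
    apply fil_spec
    have h1 : Et p g c η k 0 - single [top] 1 ∈ Sp k (Good (Zt p g c top 0) 0 1) := by
      refine Submodule.sub_mem _ ?_ ?_
      · have := (Et_spec (k := k) (c := c) hp hgp hg hη 0).1
        rw [Nat.cast_zero, zero_mul] at this
        exact Sp_mono (hXZ 0) le_rfl this
      · apply single_mem'
        refine ⟨?_, ?_, rfl⟩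
        · intro x hx
          rw [List.mem_singleton.1 hx]
          exact mem_J _ (hXn 0)
        · intro x hx y hy
          rw [List.mem_singleton.1 hx, List.mem_singleton.1 hy, dist_self]
    have h2 := hfill 0 le_rfl h1 (by rw [map_sub, Et, d_single, d_single]; simp [dl])
    rw [zero_add] at h2
    rw [Nat.cast_one, one_mul]
    exact h2
  have step : ∀ i, At p g c top η k i ∈ Sp k (Good (Zt p g c top i) ((i + 1 : ℕ) * η) (i + 2)) →
      opT p g (i + 1) (Et p g c η k i) - opT p g (i + 1) (d (At p g c top η k i)) = 0 →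
      At p g c top η k (i + 1) ∈ Sp k (Good (Zt p g c top (i + 1)) ((i + 2 : ℕ) * η) (i + 3)) ∧
      d (At p g c top η k (i + 1)) =
        Et p g c η k (i + 1) - opT p g (i + 1) (At p g c top η k i) := by
    intro i h1 h2
    rw [At]
    apply fil_spec
    have h3 : Et p g c η k (i + 1) - opT p g (i + 1) (At p g c top η k i) ∈
        Sp k (Good (Zt p g c top (i + 1)) ((i + 1 : ℕ) * η) (i + 2)) := by
      refine Submodule.sub_mem _ ?_ ?_
      · exact Sp_mono (hXZ (i + 1)) le_rfl (Et_spec (k := k) (c := c) hp hgp hg hη (i + 1)).1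
      · exact Sp_mono (hZs i) le_rfl (opT_mem (hZm i) hg _ h1)
    have h4 := hfill (i + 1) (by positivity) h3 (by
      rw [map_sub, (Et_spec (k := k) (c := c) hp hgp hg hη i).2, d_opT, h2])
    have h5 : ((i + 1 : ℕ) : ℝ) * η + η = ((i + 2 : ℕ) : ℝ) * η := by push_cast; ring
    rw [h5] at h4
    exact h4
  have all : ∀ i, At p g c top η k i ∈ Sp k (Good (Zt p g c top i) ((i + 1 : ℕ) * η) (i + 2)) ∧
      opT p g (i + 1) (Et p g c η k i) - opT p g (i + 1) (d (At p g c top η k i)) = 0 := by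
    intro i
    induction i with
    | zero =>
      refine ⟨h0.1, ?_⟩
      rw [h0.2, opT_sub]
      simp [opT, htop]
    | succ i ih =>
      obtain ⟨h1, h2⟩ := step i ih.1 ih.2
      refine ⟨h1, ?_⟩
      rw [h2, opT_sub, opT_opT hgp]
      simp
  exact ⟨(all i).1, h0.2, (step i (all i).1 (all i).2).2⟩

end build

/-- **The labelling theorem.** -/
theorem labelling {E : Type*} [NormedAddCommGroup E] [NormedSpace ℝ E] {p : ℕ} [Fact p.Prime]
    {T : Type*} [Fintype T] (hpT : Fintype.card T + 2 < p) {g : E → E} (hgp : g^[p] = id)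
    (hg : ∀ x y, dist (g x) (g y) = dist x y)
    (hlin : ∀ (a b : ℝ) (x y : E), g (a • x + b • y) = a • g x + b • g y) (c : ℕ → E) {top : E}
    (htop : g top = top) (lab : E → Lab p T) (hlab : ∀ x, lab (g x) = sh 1 (lab x))
    (hltop : lab top = .inl true) (hbase : ∀ x ∈ Xt p g c (Fintype.card T), lab x = .inl false)
    {η : ℝ} (hη : 0 < η) (hcmp : ∀ x ∈ Zt p g c top (Fintype.card T),
      ∀ y ∈ Zt p g c top (Fintype.card T), dist x y ≤ η → Cmp (lab x) (lab y)) : False := by
  have hp : 0 < p := (Fact.out : p.Prime).pos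
  set m := Fintype.card T with hm
  set η' : ℝ := η / (m + 1 : ℕ) with hη'
  have hη'0 : 0 < η' := by positivity
  refine core hpT g lab hlab top hltop (Et p g c η' (ZMod p)) (At p g c top η' (ZMod p)) ?_ ?_ ?_ ?_
  · intro i hi
    refine Finsupp.supported_mono ?_ (Et_spec (k := ZMod p) (c := c) hp hgp hg hη'0 i).1
    rintro l ⟨h1, -, h3⟩
    exact ⟨h3, fun x hx => hbase x (Xt_mono hp hi (St_subset hp i (h1 x hx)))⟩
  · intro i hi
    refine Finsupp.supported_mono ?_
      (At_spec (k := ZMod p) (c := c) hp hgp hg hη'0 hlin htop i).1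
    rintro l ⟨h1, h2, h3⟩
    refine ⟨?_, by simp [h3]⟩
    intro x hx y hy
    obtain ⟨u, hu, rfl⟩ := List.mem_map.1 hx
    obtain ⟨v, hv, rfl⟩ := List.mem_map.1 hy
    have hZ : ∀ i, i ≤ m → Zt p g c top i ⊆ Zt p g c top m := fun i hi =>
      J_mono _ (Xt_mono hp hi)
    refine hcmp u (hZ i hi (h1 u hu)) v (hZ i hi (h1 v hv)) ((h2 u hu v hv).trans ?_)
    rw [hη', ← mul_div_assoc, div_le_iff₀ (by positivity), mul_comm]
    refine mul_le_mul_of_nonneg_left ?_ hη.le
    exact_mod_cast (by omega : i + 1 ≤ m + 1)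
  · exact (At_spec (k := ZMod p) (c := c) hp hgp hg hη'0 hlin htop 0).2.1
  · intro i _
    exact (At_spec (k := ZMod p) (c := c) hp hgp hg hη'0 hlin htop i).2.2

end Pool.Agent.Helper68.Zp
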