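import Mathlib

/-!
# Chains of lists

The ordered chain complex of lists of points, prism operators, and the contraction of small
cycles in a star-shaped set.
-/

set_option autoImplicit false

namespace Pool.Agent.Helper68.Zp

open Finsupp

variable {k : Type*} [CommRing k] {α β γ : Type*}

/-- Chains: linear combinations of lists. -/
abbrev Ch (k : Type*) [CommRing k] (α : Type*) : Type _ := List α →₀ k

/-- Adding a point in front. -/
noncomputable def cone (x : α) : Ch k α →ₗ[k] Ch k α := Finsupp.lmapDomain k k (List.cons x)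

/-- The boundary of a list. -/
noncomputable def dl : List α → Ch k α
  | [] => 0
  | x :: l => single l 1 - cone x (dl l)

/-- The boundary. -/
noncomputable def d : Ch k α →ₗ[k] Ch k α := Finsupp.linearCombination k dl

/-- The map induced by a map. -/
noncomputable def mp (h : α → β) : Ch k α →ₗ[k] Ch k β := Finsupp.lmapDomain k k (List.map h)

/-- The prism over a list. -/
noncomputable def pl (h h' : α → β) : List α → Ch k β
  | [] => 0
  | x :: l => single (h x :: h' x :: l.map h') 1 - cone (h x) (pl h h' l)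

/-- The prism operator. -/
noncomputable def pr (h h' : α → β) : Ch k α →ₗ[k] Ch k β := Finsupp.linearCombination k (pl h h')

@[simp] theorem cone_single (x : α) (l : List α) (a : k) :
    cone x (single l a) = single (x :: l) a := by
  simp [cone, Finsupp.lmapDomain_apply, Finsupp.mapDomain_single]

@[simp] theorem d_single (l : List α) : d (single l (1 : k)) = dl l := by
  simp [d]

@[simp] theorem mp_single (h : α → β) (l : List α) (a : k) :
    mp h (single l a) = single (l.map h) a := by
  simp [mp, Finsupp.lmapDomain_apply, Finsupp.mapDomain_single]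

@[simp] theorem pr_single (h h' : α → β) (l : List α) :
    pr h h' (single l (1 : k)) = pl h h' l := by
  simp [pr]

theorem lin_ext {M : Type*} [AddCommGroup M] [Module k M] {f g : Ch k α →ₗ[k] M}
    (h : ∀ l, f (single l 1) = g (single l 1)) : f = g := by
  refine Finsupp.lhom_ext' fun l => ?_
  ext
  simpa using h l

theorem mp_cone (h : α → β) (x : α) (z : Ch k α) : mp h (cone x z) = cone (h x) (mp h z) := by
  have : (mp h ∘ₗ cone x : Ch k α →ₗ[k] Ch k β) = cone (h x) ∘ₗ mp h := by
    refine lin_ext fun l => ?_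
    simp
  exact LinearMap.congr_fun this z

theorem mp_mp (h : α → β) (h' : β → γ) (z : Ch k α) : mp h' (mp h z) = mp (h' ∘ h) z := by
  have : (mp h' ∘ₗ mp h : Ch k α →ₗ[k] Ch k γ) = mp (h' ∘ h) := by
    refine lin_ext fun l => ?_
    simp
  exact LinearMap.congr_fun this z

theorem mp_id (z : Ch k α) : mp id z = z := by
  have : (mp id : Ch k α →ₗ[k] Ch k α) = LinearMap.id := by
    refine lin_ext fun l => ?_
    simp
  exact LinearMap.congr_fun this z

theorem d_cone (x : α) (z : Ch k α) : d (cone x z) = z - cone x (d z) := by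
  have : (d ∘ₗ cone x : Ch k α →ₗ[k] Ch k α) = LinearMap.id - cone x ∘ₗ d := by
    refine lin_ext fun l => ?_
    simp [dl]
  exact LinearMap.congr_fun this z

theorem d_d (z : Ch k α) : d (d z) = 0 := by
  have : (d ∘ₗ d : Ch k α →ₗ[k] Ch k α) = 0 := by
    refine lin_ext fun l => ?_
    induction l with
    | nil => simp [dl]
    | cons x l ih =>
      simp only [LinearMap.comp_apply, d_single, LinearMap.zero_apply, dl, map_sub, d_cone] at ih ⊢
      rw [ih]
      simp
  exact LinearMap.congr_fun this z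

theorem d_mp (h : α → β) (z : Ch k α) : d (mp h z) = mp h (d z) := by
  have : (d ∘ₗ mp h : Ch k α →ₗ[k] Ch k β) = mp h ∘ₗ d := by
    refine lin_ext fun l => ?_
    induction l with
    | nil => simp [dl]
    | cons x l ih =>
      simp only [LinearMap.comp_apply, d_single, mp_single, List.map_cons, dl, map_sub,
        mp_cone] at ih ⊢
      rw [ih]
  exact LinearMap.congr_fun this z

theorem d_pr (h h' : α → β) (z : Ch k α) :
    d (pr h h' z) + pr h h' (d z) = mp h' z - mp h z := by
  have : (d ∘ₗ pr h h' + pr h h' ∘ₗ d : Ch k α →ₗ[k] Ch k β) = mp h' - mp h := by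
    refine lin_ext fun l => ?_
    induction l with
    | nil => simp [dl, pl]
    | cons x l ih =>
      have hc : ∀ z : Ch k α, pr h h' (cone x z) =
          cone (h x) (cone (h' x) (mp h' z)) - cone (h x) (pr h h' z) := by
        intro z
        have : (pr h h' ∘ₗ cone x : Ch k α →ₗ[k] Ch k β) =
            cone (h x) ∘ₗ cone (h' x) ∘ₗ mp h' - cone (h x) ∘ₗ pr h h' := by
          refine lin_ext fun l => ?_
          simp [pl]
        exact LinearMap.congr_fun this z
      have hd : dl (l.map h') = mp h' (dl l : Ch k α) := by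
        have := d_mp h' (single l (1 : k))
        simpa using this
      simp only [LinearMap.add_apply, LinearMap.comp_apply, LinearMap.sub_apply, d_single,
        mp_single, pr_single, List.map_cons, dl, pl, map_sub, d_cone, hc] at ih ⊢
      have ih' : d (pl h h' l : Ch k β) = single (l.map h') 1 - single (l.map h) 1 -
          pr h h' (dl l) := by
        rw [← ih]; abel
      rw [ih', hd]
      simp only [map_sub, cone_single]
      abel
  exact LinearMap.congr_fun this z

/-! ## Supports -/

/-- Chains supported on a set of lists. -/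
noncomputable abbrev Sp (k : Type*) [CommRing k] {α : Type*} (s : Set (List α)) :
    Submodule k (Ch k α) := Finsupp.supported k k s

theorem map_mem {M : Type*} [AddCommGroup M] [Module k M] {T : Ch k α →ₗ[k] M}
    {s : Set (List α)} {N : Submodule k M} (h : ∀ l ∈ s, T (single l 1) ∈ N) {z : Ch k α}
    (hz : z ∈ Sp k s) : T z ∈ N := by
  rw [Sp, Finsupp.supported_eq_span_single] at hz
  induction hz using Submodule.span_induction with
  | mem x hx =>
    obtain ⟨l, hl, rfl⟩ := hx
    exact h l hl
  | zero => simp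
  | add x y _ _ hx hy => rw [map_add]; exact N.add_mem hx hy
  | smul a x _ hx => rw [map_smul]; exact N.smul_mem a hx

theorem single_mem' {s : Set (List α)} {l : List α} (h : l ∈ s) (a : k) : single l a ∈ Sp k s :=
  Finsupp.single_mem_supported k a h

theorem dl_mem (l : List α) : (dl l : Ch k α) ∈ Sp k {m | m.Sublist l ∧ m.length + 1 = l.length} := by
  induction l with
  | nil => simp [dl]
  | cons x l ih =>
    rw [dl]
    refine Submodule.sub_mem _ ?_ ?_
    · apply single_mem'
      exact ⟨List.sublist_cons_self x l, rfl⟩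
    · refine map_mem (fun m hm => ?_) ih
      rw [cone_single]
      apply single_mem'
      exact ⟨hm.1.cons_cons x, by simp [hm.2]⟩

theorem pl_mem (h h' : α → β) (l : List α) : (pl h h' l : Ch k β) ∈
    Sp k {m | (∀ y ∈ m, ∃ x ∈ l, y = h x ∨ y = h' x) ∧ m.length = l.length + 1} := by
  induction l with
  | nil => simp [pl]
  | cons x l ih =>
    rw [pl]
    refine Submodule.sub_mem _ ?_ ?_
    · apply single_mem'
      refine ⟨?_, by simp⟩
      intro y hy
      simp only [List.mem_cons, List.mem_map] at hy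
      rcases hy with rfl | rfl | ⟨u, hu, rfl⟩
      · exact ⟨x, List.mem_cons_self, Or.inl rfl⟩
      · exact ⟨x, List.mem_cons_self, Or.inr rfl⟩
      · exact ⟨u, List.mem_cons_of_mem _ hu, Or.inr rfl⟩
    · refine map_mem (fun m hm => ?_) ih
      rw [cone_single]
      apply single_mem'
      refine ⟨?_, by simp [hm.2]⟩
      intro y hy
      rcases List.mem_cons.1 hy with rfl | hy
      · exact ⟨x, List.mem_cons_self, Or.inl rfl⟩
      · obtain ⟨u, hu, hu'⟩ := hm.1 y hy
        exact ⟨u, List.mem_cons_of_mem _ hu, hu'⟩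

/-- The lists of a given length of points of a set at pairwise distances at most `ε`. -/
def Good {E : Type*} [PseudoMetricSpace E] (S : Set E) (ε : ℝ) (n : ℕ) : Set (List E) :=
  {l | (∀ x ∈ l, x ∈ S) ∧ (∀ x ∈ l, ∀ y ∈ l, dist x y ≤ ε) ∧ l.length = n}

section metric

variable {E : Type*} [PseudoMetricSpace E] {F : Type*} [PseudoMetricSpace F]

theorem Good.mono {S S' : Set E} {ε ε' : ℝ} (h : S ⊆ S') (h' : ε ≤ ε') (n : ℕ) :
    Good S ε n ⊆ Good S' ε' n :=
  fun _ hl => ⟨fun x hx => h (hl.1 x hx), fun x hx y hy => (hl.2.1 x hx y hy).trans h', hl.2.2⟩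

theorem d_mem {S : Set E} {ε : ℝ} {n : ℕ} {z : Ch k E} (hz : z ∈ Sp k (Good S ε (n + 1))) :
    d z ∈ Sp k (Good S ε n) := by
  refine map_mem (fun l hl => ?_) hz
  rw [d_single]
  refine Finsupp.supported_mono ?_ (dl_mem l)
  intro m hm
  refine ⟨fun x hx => hl.1 x (hm.1.subset hx), fun x hx y hy =>
    hl.2.1 x (hm.1.subset hx) y (hm.1.subset hy), ?_⟩
  have := hl.2.2
  have := hm.2
  omega

theorem mp_mem {S : Set E} {S' : Set F} {ε ε' : ℝ} {n : ℕ} {h : E → F} (hS : Set.MapsTo h S S')
    (hd : ∀ x ∈ S, ∀ y ∈ S, dist x y ≤ ε → dist (h x) (h y) ≤ ε') {z : Ch k E}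
    (hz : z ∈ Sp k (Good S ε n)) : mp h z ∈ Sp k (Good S' ε' n) := by
  refine map_mem (fun l hl => ?_) hz
  rw [mp_single]
  apply single_mem'
  refine ⟨?_, ?_, by simp [hl.2.2]⟩
  · intro x hx
    obtain ⟨u, hu, rfl⟩ := List.mem_map.1 hx
    exact hS (hl.1 u hu)
  · intro x hx y hy
    obtain ⟨u, hu, rfl⟩ := List.mem_map.1 hx
    obtain ⟨v, hv, rfl⟩ := List.mem_map.1 hy
    exact hd u (hl.1 u hu) v (hl.1 v hv) (hl.2.1 u hu v hv)

theorem pr_mem {S : Set E} {S' : Set F} {ε η : ℝ} {n : ℕ} {h h' : E → F}
    (hS : Set.MapsTo h S S') (hS' : Set.MapsTo h' S S') (hη : 0 ≤ η)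
    (hd : ∀ x ∈ S, ∀ y ∈ S, dist (h x) (h y) ≤ dist x y)
    (hd' : ∀ x ∈ S, ∀ y ∈ S, dist (h' x) (h' y) ≤ dist x y)
    (hh : ∀ x ∈ S, dist (h x) (h' x) ≤ η) {z : Ch k E}
    (hz : z ∈ Sp k (Good S ε n)) : pr h h' z ∈ Sp k (Good S' (ε + η) (n + 1)) := by
  refine map_mem (fun l hl => ?_) hz
  rw [pr_single]
  refine Finsupp.supported_mono ?_ (pl_mem h h' l)
  intro m hm
  refine ⟨?_, ?_, by rw [hm.2, hl.2.2]⟩
  · intro x hx
    obtain ⟨u, hu, rfl | rfl⟩ := hm.1 x hx
    · exact hS (hl.1 u hu)
    · exact hS' (hl.1 u hu)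
  · intro x hx y hy
    obtain ⟨u, hu, hu'⟩ := hm.1 x hx
    obtain ⟨v, hv, hv'⟩ := hm.1 y hy
    have huS := hl.1 u hu
    have hvS := hl.1 v hv
    have huv := hl.2.1 u hu v hv
    rcases hu' with rfl | rfl <;> rcases hv' with rfl | rfl
    · linarith [hd u huS v hvS]
    · calc dist (h u) (h' v) ≤ dist (h u) (h v) + dist (h v) (h' v) := dist_triangle _ _ _
        _ ≤ ε + η := add_le_add ((hd u huS v hvS).trans huv) (hh v hvS)
    · calc dist (h' u) (h v) ≤ dist (h' u) (h' v) + dist (h' v) (h v) := dist_triangle _ _ _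
        _ ≤ ε + η := add_le_add ((hd' u huS v hvS).trans huv) (by rw [dist_comm]; exact hh v hvS)
    · linarith [hd' u huS v hvS]

end metric

/-! ## Contraction -/

section contraction

variable {E : Type*} [NormedAddCommGroup E] [NormedSpace ℝ E]

theorem contract {S : Set E} {c : E} (hS : StarConvex ℝ c S) (hc : c ∈ S) {D : ℝ}
    (hD : ∀ x ∈ S, dist x c ≤ D) {ε η : ℝ} (hε : 0 ≤ ε) (hη : 0 < η) {n : ℕ} {z : Ch k E}
    (hz : z ∈ Sp k (Good S ε n)) (hdz : d z = 0) :
    ∃ w ∈ Sp k (Good S (ε + η) (n + 1)), d w = z := by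
  obtain ⟨M, hM⟩ := exists_nat_gt (D / η)
  have hD0 : 0 ≤ D := dist_nonneg.trans (hD c hc)
  have hM0 : (0 : ℝ) < M := lt_of_le_of_lt (div_nonneg hD0 hη.le) hM
  set h : ℕ → E → E := fun j x => AffineMap.lineMap x c ((j : ℝ) / M) with hh
  have hmaps : ∀ j ≤ M, Set.MapsTo (h j) S S := by
    intro j hj x hx
    have h1 : (j : ℝ) / M ≤ 1 := by
      rw [div_le_one hM0]; exact_mod_cast hj
    have h2 := hS hx (a := (j : ℝ) / M) (b := 1 - (j : ℝ) / M) (by positivity) (by linarith)
      (by ring)
    simp only [hh, AffineMap.lineMap_apply_module]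
    rw [add_comm]
    exact h2
  have hdist : ∀ j ≤ M, ∀ x ∈ S, ∀ y ∈ S, dist (h j x) (h j y) ≤ dist x y := by
    intro j hj x _ y _
    have h1 : (j : ℝ) / M ≤ 1 := by
      rw [div_le_one hM0]; exact_mod_cast hj
    have h0 : 0 ≤ (j : ℝ) / M := by positivity
    simp only [hh, AffineMap.lineMap_apply_module]
    rw [dist_add_right, dist_smul₀, Real.norm_eq_abs, abs_of_nonneg (by linarith)]
    exact mul_le_of_le_one_left dist_nonneg (by linarith)
  have hstep : ∀ j, ∀ x ∈ S, dist (h j x) (h (j + 1) x) ≤ η := by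
    intro j x hx
    simp only [hh]
    rw [dist_lineMap_lineMap, Real.dist_eq]
    have h1 : |(j : ℝ) / M - ((j + 1 : ℕ) : ℝ) / M| = 1 / M := by
      rw [div_sub_div_same, abs_div, abs_of_pos hM0]
      push_cast
      norm_num
    rw [h1]
    calc 1 / (M : ℝ) * dist x c ≤ 1 / M * D :=
          mul_le_mul_of_nonneg_left (hD x hx) (by positivity)
      _ ≤ η := by
          rw [one_div, inv_mul_le_iff₀ hM0]
          rw [div_lt_iff₀ hη] at hM
          exact hM.le
  have h0 : mp (h 0) z = z := by
    have : h 0 = id := by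
      funext x
      simp [hh]
    rw [this, mp_id]
  have hlast : mp (h M) z = mp (fun _ => c) z := by
    have : h M = fun _ => c := by
      funext x
      simp [hh, hM0.ne']
    rw [this]
  refine ⟨cone c (mp (fun _ => c) z) - ∑ j ∈ Finset.range M, pr (h j) (h (j + 1)) z, ?_, ?_⟩
  · refine Submodule.sub_mem _ ?_ (Submodule.sum_mem _ fun j hj => ?_)
    · have h1 : mp (fun _ : E => c) z ∈ Sp k (Good {c} 0 n) :=
        mp_mem (S' := {c}) (ε' := 0) (fun _ _ => rfl) (fun _ _ _ _ _ => by simp) hz
      refine map_mem (fun l hl => ?_) h1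
      rw [cone_single]
      have h2 : ∀ x ∈ c :: l, x = c := by
        intro x hx
        rcases List.mem_cons.1 hx with h | h
        · exact h
        · exact hl.1 x h
      apply single_mem'
      refine ⟨?_, ?_, by simp [hl.2.2]⟩
      · intro x hx
        rw [h2 x hx]; exact hc
      · intro x hx y hy
        rw [h2 x hx, h2 y hy, dist_self]
        linarith
    · have hj' : j < M := Finset.mem_range.1 hj
      exact pr_mem (hmaps j hj'.le) (hmaps (j + 1) hj') hη.le (hdist j hj'.le)
        (hdist (j + 1) hj') (hstep j) hz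
  · rw [map_sub, d_cone, d_mp, hdz, map_zero, map_zero, sub_zero, map_sum]
    have h1 : ∀ j ∈ Finset.range M, d (pr (h j) (h (j + 1)) z) =
        mp (h (j + 1)) z - mp (h j) z := by
      intro j _
      rw [← d_pr, hdz, map_zero, add_zero]
    rw [Finset.sum_congr rfl h1, Finset.sum_range_sub (fun j => mp (h j) z), h0, hlast]
    abel

end contraction

end Pool.Agent.Helper68.Zp
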