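import Pool.Agent.Helper68.Zp.Chains

/-!
# Antisymmetric cochains on lists of labels
-/

set_option autoImplicit false

namespace Pool.Agent.Helper68.Zp

open Finsupp

variable {k : Type*} [CommRing k] {α β : Type*}

/-- The pairing of a cochain with a chain. -/
noncomputable def ev (φ : List α → k) : Ch k α →ₗ[k] k := Finsupp.linearCombination k φ

@[simp] theorem ev_single (φ : List α → k) (l : List α) : ev φ (single l (1 : k)) = φ l := by
  simp [ev]

/-- The coboundary. -/
noncomputable def cb (φ : List α → k) : List α → k := fun l => ev φ (dl l)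

theorem ev_cb (φ : List α → k) (z : Ch k α) : ev (cb φ) z = ev φ (d z) := by
  have : (ev (cb φ) : Ch k α →ₗ[k] k) = ev φ ∘ₗ d := by
    refine lin_ext fun l => ?_
    simp [cb]
  exact LinearMap.congr_fun this z

theorem ev_mp (φ : List β → k) (h : α → β) (z : Ch k α) :
    ev φ (mp h z) = ev (fun l => φ (l.map h)) z := by
  have : (ev φ ∘ₗ mp h : Ch k α →ₗ[k] k) = ev (fun l => φ (l.map h)) := by
    refine lin_ext fun l => ?_
    simp
  exact LinearMap.congr_fun this z

theorem ev_congr {φ φ' : List α → k} {s : Set (List α)} (h : ∀ l ∈ s, φ l = φ' l) {z : Ch k α}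
    (hz : z ∈ Sp k s) : ev φ z = ev φ' z := by
  have h1 : (ev φ - ev φ' : Ch k α →ₗ[k] k) z ∈ (⊥ : Submodule k k) := by
    refine map_mem (fun l hl => ?_) hz
    simp [h l hl]
  rw [Submodule.mem_bot, LinearMap.sub_apply, sub_eq_zero] at h1
  exact h1

theorem ev_cone (φ : List α → k) (x : α) (z : Ch k α) :
    ev φ (cone x z) = ev (fun l => φ (x :: l)) z := by
  have : (ev φ ∘ₗ cone x : Ch k α →ₗ[k] k) = ev (fun l => φ (x :: l)) := by
    refine lin_ext fun l => ?_
    simp
  exact LinearMap.congr_fun this z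

theorem cb_cons (φ : List α → k) (x : α) (l : List α) :
    cb φ (x :: l) = φ l - cb (fun m => φ (x :: m)) l := by
  simp [cb, dl, ev_cone]

theorem cb_add (φ φ' : List α → k) (l : List α) :
    cb (fun m => φ m + φ' m) l = cb φ l + cb φ' l := by
  have : (ev (fun m => φ m + φ' m) : Ch k α →ₗ[k] k) = ev φ + ev φ' := by
    refine lin_ext fun l => ?_
    simp
  simp [cb, this]

theorem cb_zero (l : List α) : cb (fun _ => (0 : k)) l = 0 := by
  have : (ev (fun _ => (0 : k)) : Ch k α →ₗ[k] k) = 0 := by
    refine lin_ext fun l => ?_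
    simp
  simp [cb, this]

theorem cb_cb (φ : List α → k) (l : List α) : cb (cb φ) l = 0 := by
  have h := ev_cb (cb φ) (single l (1 : k))
  rw [ev_single, d_single, ev_cb] at h
  rw [h]
  have h2 := d_d (single l (1 : k))
  rw [d_single] at h2
  rw [h2, map_zero]

/-- Antisymmetric cochains. -/
def Anti (φ : List α → k) : Prop :=
  ∀ (l₁ : List α) (x y : α) (l₂ : List α), φ (l₁ ++ x :: y :: l₂) + φ (l₁ ++ y :: x :: l₂) = 0

theorem Anti.cons {φ : List α → k} (h : Anti φ) (x : α) : Anti (fun l => φ (x :: l)) :=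
  fun l₁ y z l₂ => h (x :: l₁) y z l₂

theorem Anti.cb {φ : List α → k} (h : Anti φ) : Anti (cb φ) := by
  intro l₁
  induction l₁ generalizing φ with
  | nil =>
    intro x y l₂
    simp only [List.nil_append, cb_cons]
    have h1 : Zp.cb (fun m => φ (x :: y :: m)) l₂ + Zp.cb (fun m => φ (y :: x :: m)) l₂ = 0 := by
      rw [← cb_add]
      have : (fun m => φ (x :: y :: m) + φ (y :: x :: m)) = fun _ => (0 : k) := by
        funext m
        exact h [] x y m
      rw [this, cb_zero]
    linear_combination h1
  | cons z l₁ ih =>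
    intro x y l₂
    simp only [List.cons_append, cb_cons]
    have h1 := h l₁ x y l₂
    have h2 := ih (h.cons z) x y l₂
    linear_combination h1 - h2

theorem Anti.perm {φ : List α → k} (h : Anti φ) {l l' : List α} (hp : l.Perm l') :
    φ l = φ l' ∨ φ l = -φ l' := by
  induction hp generalizing φ with
  | nil => exact Or.inl rfl
  | cons x _ ih => exact ih (h.cons x)
  | swap x y l => exact Or.inr (eq_neg_of_add_eq_zero_left (h [] y x l))
  | trans _ _ ih1 ih2 =>
    rcases ih1 h with h1 | h1 <;> rcases ih2 h with h2 | h2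
    · exact Or.inl (h1.trans h2)
    · exact Or.inr (h1.trans h2)
    · exact Or.inr (by rw [h1, h2])
    · exact Or.inl (by rw [h1, h2, neg_neg])

theorem Anti.eq_zero {φ : List α → k} (h : Anti φ) (h2 : IsUnit (2 : k)) {l : List α}
    (hl : ¬ l.Nodup) : φ l = 0 := by
  obtain ⟨x, hx⟩ := List.exists_duplicate_iff_not_nodup.2 hl
  rw [List.duplicate_iff_sublist] at hx
  obtain ⟨m, hm⟩ := hx.exists_perm_append
  have h1 := h [] x x m
  simp only [List.nil_append] at h1
  have h3 : φ (x :: x :: m) = 0 := by
    have : (2 : k) * φ (x :: x :: m) = 0 := by linear_combination h1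
    exact (h2.mul_right_eq_zero).1 this
  rcases h.perm hm with h4 | h4
  · rw [h4]; exact h3
  · rw [h4]
    simp only [List.cons_append, List.nil_append]
    rw [h3, neg_zero]

end Pool.Agent.Helper68.Zp
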