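import Pool.Agent.Helper68.Zp.Labels

/-!
# The combinatorial core: there is no labelled chain
-/

set_option autoImplicit false

namespace Pool.Agent.Helper68.Zp

open Finsupp

variable {k : Type*} [CommRing k] {α β : Type*}

theorem cb_congr {φ φ' : List α → k} {l : List α}
    (h : ∀ m : List α, m.Sublist l → m.length + 1 = l.length → φ m = φ' m) :
    cb φ l = cb φ' l :=
  ev_congr (s := {m | m.Sublist l ∧ m.length + 1 = l.length}) (fun m hm => h m hm.1 hm.2) (dl_mem l)

theorem cb_map (φ : List β → k) (f : α → β) (l : List α) :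
    cb (fun m => φ (m.map f)) l = cb φ (l.map f) := by
  have h := d_mp f (single l (1 : k))
  rw [mp_single, d_single, d_single] at h
  rw [cb, cb, h, ev_mp]

theorem cb_sub (φ φ' : List α → k) (l : List α) :
    cb (fun m => φ m - φ' m) l = cb φ l - cb φ' l := by
  have : (ev (fun m => φ m - φ' m) : Ch k α →ₗ[k] k) = ev φ - ev φ' := by
    refine lin_ext fun l => ?_
    simp
  simp [cb, this]

theorem cb_sum {ι : Type*} (s : Finset ι) (φ : ι → List α → k) (l : List α) :
    cb (fun m => ∑ i ∈ s, φ i m) l = ∑ i ∈ s, cb (φ i) l := by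
  have : (ev (fun m => ∑ i ∈ s, φ i m) : Ch k α →ₗ[k] k) = ∑ i ∈ s, ev (φ i) := by
    refine lin_ext fun l => ?_
    simp
  simp [cb, this]

theorem ev_sub (φ φ' : List α → k) (z : Ch k α) :
    ev (fun m => φ m - φ' m) z = ev φ z - ev φ' z := by
  have : (ev (fun m => φ m - φ' m) : Ch k α →ₗ[k] k) = ev φ - ev φ' := by
    refine lin_ext fun l => ?_
    simp
  simp [this]

theorem ev_sum {ι : Type*} (s : Finset ι) (φ : ι → List α → k) (z : Ch k α) :
    ev (fun m => ∑ i ∈ s, φ i m) z = ∑ i ∈ s, ev (φ i) z := by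
  have : (ev (fun m => ∑ i ∈ s, φ i m) : Ch k α →ₗ[k] k) = ∑ i ∈ s, ev (φ i) := by
    refine lin_ext fun l => ?_
    simp
  simp [this]

variable {p : ℕ} [Fact p.Prime] {T : Type*}

/-- The operators of the standard resolution of the cyclic group generated by `g`. -/
noncomputable def opT (p : ℕ) (g : α → α) (i : ℕ) (z : Ch k α) : Ch k α :=
  if i % 2 = 1 then mp g z - z else ∑ j ∈ Finset.range p, mp (g^[j]) z

omit [Fact p.Prime] in
theorem CL.sublist {n : ℕ} {l m : List (Lab p T)} (h : l ∈ CL p T (n + 1)) (hm : m.Sublist l)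
    (hl : m.length + 1 = l.length) : m ∈ CL p T n := by
  refine ⟨fun x hx y hy => h.1 x (hm.subset hx) y (hm.subset hy), ?_⟩
  have := h.2
  omega

theorem sh_iter (x : Lab p T) (j : ℕ) : (sh (1 : ZMod p))^[j] x = sh (j : ZMod p) x := by
  induction j with
  | zero => simp [sh_zero]
  | succ j ih =>
    rw [Function.iterate_succ_apply', ih, sh_sh]
    push_cast
    rfl

theorem sum_range_eq (F : ZMod p → k) : ∑ j ∈ Finset.range p, F (j : ZMod p) = ∑ m, F m := by
  refine Finset.sum_bij (fun j _ => (j : ZMod p)) (fun _ _ => Finset.mem_univ _) ?_ ?_ ?_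
  · intro a ha b hb hab
    have := congrArg ZMod.val hab
    rwa [ZMod.val_cast_of_lt (Finset.mem_range.1 ha),
      ZMod.val_cast_of_lt (Finset.mem_range.1 hb)] at this
  · intro m _
    exact ⟨m.val, Finset.mem_range.2 (ZMod.val_lt m), ZMod.natCast_zmod_val m⟩
  · intro a ha
    rfl

theorem lab_iter {g : α → α} {lab : α → Lab p T} (hlab : ∀ x, lab (g x) = sh 1 (lab x)) (j : ℕ)
    (x : α) : lab (g^[j] x) = sh (j : ZMod p) (lab x) := by
  rw [← sh_iter]
  induction j with
  | zero => rfl
  | succ j ih => rw [Function.iterate_succ_apply', hlab, ih, Function.iterate_succ_apply']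

/-- The indicator of the upper pole. -/
noncomputable def psi : List (Lab p T) → ZMod p
  | [.inl true] => 1
  | _ => 0

theorem psi_anti : Anti (psi (p := p) (T := T)) := by
  intro l₁ x y l₂
  have h : ∀ l : List (Lab p T), 2 ≤ l.length → psi l = 0 := by
    intro l hl
    rcases l with _ | ⟨a, _ | ⟨b, l⟩⟩
    · simp at hl
    · simp at hl
    · simp [psi]
  rw [h _ (by simp; omega), h _ (by simp; omega), add_zero]

theorem psi_sh (m : ZMod p) (x : Lab p T) : psi [sh m x] = psi [x] := by
  rcases x with b | ⟨t, a⟩ <;> rfl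

theorem cb_two (φ : List α → k) (x y : α) : cb φ [x, y] = φ [y] - φ [x] := by
  have h0 : ∀ φ : List α → k, cb φ [] = 0 := fun φ => by simp [cb, dl]
  rw [cb_cons, cb_cons, h0, sub_zero]

theorem core [Fintype T] (hp : Fintype.card T + 2 < p) (g : α → α) (lab : α → Lab p T)
    (hlab : ∀ x, lab (g x) = sh 1 (lab x)) (top : α) (htop : lab top = .inl true)
    (E A : ℕ → Ch (ZMod p) α)
    (hE : ∀ i ≤ Fintype.card T, E i ∈ Sp (ZMod p) {l | l.length = i + 1 ∧ ∀ x ∈ l, lab x = .inl false})
    (hA : ∀ i ≤ Fintype.card T, A i ∈ Sp (ZMod p) {l | l.map lab ∈ CL p T (i + 2)})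
    (hA0 : d (A 0) = E 0 - single [top] 1)
    (hAs : ∀ i < Fintype.card T, d (A (i + 1)) = E (i + 1) - opT p g (i + 1) (A i)) : False := by
  have hp2 : p ≠ 2 := by omega
  have hEz : ∀ i, i + 1 ≤ Fintype.card T → ∀ η : List (Lab p T) → ZMod p, Anti η →
      ev η (mp lab (E (i + 1))) = 0 := by
    intro i hi η hη
    rw [ev_mp]
    have h1 := ev_congr (φ := fun l => η (l.map lab)) (φ' := fun _ => 0) ?_ (hE (i + 1) hi)
    · rw [h1]
      have : (ev (fun _ => (0 : ZMod p)) : Ch (ZMod p) α →ₗ[ZMod p] ZMod p) = 0 := by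
        refine lin_ext fun l => ?_
        simp
      rw [this]
      rfl
    · intro l hl
      refine hη.eq_zero (two_unit hp2) ?_
      obtain ⟨h1, h2⟩ := hl
      rcases l with _ | ⟨x, _ | ⟨y, l⟩⟩
      · simp at h1
      · simp at h1
      · simp [h2 x (by simp), h2 y (by simp)]
  have key : ∀ i ≤ Fintype.card T, ∃ φ : List (Lab p T) → ZMod p, Anti φ ∧ (∀ l, cb φ l = 0) ∧
      (i % 2 = 0 → ∀ l ∈ CL p T (i + 2), ∑ m : ZMod p, φ (l.map (sh m)) = 0) ∧
      (i % 2 = 1 → ∀ l ∈ CL p T (i + 2), ∀ m : ZMod p, φ (l.map (sh m)) = φ l) ∧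
      ev φ (mp lab (A i)) ≠ 0 := by
    intro i
    induction i with
    | zero =>
      intro _
      refine ⟨cb psi, psi_anti.cb, cb_cb _, ?_, by simp, ?_⟩
      · intro _ l hl
        rcases l with _ | ⟨x, _ | ⟨y, _ | ⟨z, l⟩⟩⟩
        · simp [CL] at hl
        · simp [CL] at hl
        · simp [List.map_cons, cb_two, psi_sh]
        · simp [CL] at hl
      · rw [ev_cb, d_mp, hA0, map_sub, mp_single, map_sub, ev_single, ev_mp]
        have h1 := ev_congr (φ := fun l => psi (l.map lab)) (φ' := fun _ => 0) ?_
          (hE 0 (Nat.zero_le _))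
        · rw [h1]
          have : (ev (fun _ => (0 : ZMod p)) : Ch (ZMod p) α →ₗ[ZMod p] ZMod p) = 0 := by
            refine lin_ext fun l => ?_
            simp
          rw [this]
          simp [htop, psi]
        · intro l hl
          obtain ⟨h1, h2⟩ := hl
          rcases l with _ | ⟨x, _ | ⟨y, l⟩⟩
          · simp at h1
          · simp [h2 x (by simp), psi]
          · simp at h1
    | succ i ih =>
      intro hi
      obtain ⟨φ, hφ, hc, he, ho, hne⟩ := ih (by omega)
      have hn : i + 2 < p := by omega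
      have hApp : ev φ (mp lab (A i)) = ev (fun l => φ (l.map lab)) (A i) := ev_mp _ _ _
      rcases Nat.mod_two_eq_zero_or_one i with h0 | h1
      · -- difference step
        obtain ⟨η, hη, hd⟩ := solve_diff hn (by omega) hp2 hφ (he h0)
        have hinv1 : ∀ l ∈ CL p T (i + 1 + 2), cb η (l.map (sh 1)) = cb η l := by
          intro l hl
          rw [← sub_eq_zero, ← cb_map η, ← cb_sub, ← hc l]
          exact cb_congr fun m hm hml => hd m (CL.sublist hl hm hml)
        refine ⟨cb η, hη.cb, cb_cb _, by omega, ?_, ?_⟩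
        · intro _ l hl m
          have h3 : ∀ j : ℕ, cb η (l.map (sh (j : ZMod p))) = cb η l := by
            intro j
            induction j with
            | zero => simp [sh_zero]
            | succ j ihj =>
              rw [Nat.cast_succ, ← map_sh_sh, hinv1 _ (CL.sh hl _), ihj]
          rw [← ZMod.natCast_zmod_val m]
          exact h3 _
        · rw [ev_cb, d_mp, hAs i (by omega), map_sub, map_sub, hEz i hi η hη, zero_sub, neg_ne_zero]
          have h4 : ev η (mp lab (opT p g (i + 1) (A i))) = ev φ (mp lab (A i)) := by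
            rw [opT, if_pos (by omega), map_sub, map_sub, mp_mp, ev_mp, ev_mp, ← ev_sub, hApp]
            refine ev_congr (fun l hl => ?_) (hA i (by omega))
            have h5 : l.map (lab ∘ g) = (l.map lab).map (sh 1) := by
              rw [List.map_map]
              refine List.map_congr_left fun x _ => hlab x
            rw [h5]
            exact hd _ hl
          rw [h4]
          exact hne
      · -- norm step
        obtain ⟨η, hη, hd⟩ := solve_norm hn (by omega) hp2 hφ (ho h1)
        refine ⟨cb η, hη.cb, cb_cb _, ?_, by omega, ?_⟩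
        · intro _ l hl
          have h3 : ∀ m : ZMod p, cb η (l.map (sh m)) = cb (fun l => η (l.map (sh m))) l :=
            fun m => (cb_map η _ l).symm
          simp only [h3]
          rw [← cb_sum, ← hc l]
          exact cb_congr fun m hm hml => hd m (CL.sublist hl hm hml)
        · rw [ev_cb, d_mp, hAs i (by omega), map_sub, map_sub, hEz i hi η hη, zero_sub, neg_ne_zero]
          have h4 : ev η (mp lab (opT p g (i + 1) (A i))) = ev φ (mp lab (A i)) := by
            rw [opT, if_neg (by omega), map_sum, map_sum, hApp]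
            simp only [mp_mp, ev_mp]
            rw [← ev_sum]
            refine ev_congr (fun l hl => ?_) (hA i (by omega))
            have h5 : ∀ j : ℕ, l.map (lab ∘ g^[j]) = (l.map lab).map (sh (j : ZMod p)) := by
              intro j
              rw [List.map_map]
              refine List.map_congr_left fun x _ => lab_iter hlab j x
            simp only [h5]
            rw [sum_range_eq (fun m => η ((l.map lab).map (sh m)))]
            exact hd _ hl
          rw [h4]
          exact hne
  obtain ⟨φ, hφ, -, -, -, hne⟩ := key _ le_rfl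
  apply hne
  rw [ev_mp]
  have h1 := ev_congr (φ := fun l => φ (l.map lab)) (φ' := fun _ => 0) ?_ (hA _ le_rfl)
  · rw [h1]
    have : (ev (fun _ => (0 : ZMod p)) : Ch (ZMod p) α →ₗ[ZMod p] ZMod p) = 0 := by
      refine lin_ext fun l => ?_
      simp
    rw [this]
    rfl
  · intro l hl
    refine hφ.eq_zero (two_unit hp2) fun hnd => ?_
    have := CL.length_le hl hnd
    omega

end Pool.Agent.Helper68.Zp
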