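import Mathlib

/-!
# Sums over the roots of unity and the values of a form along a conic
-/

set_option autoImplicit false

namespace Pool.Agent.Helper68.Zp

open MvPolynomial

/-! ## Roots of unity -/

/-- The `M`-th roots of unity. -/
noncomputable def mu (M : ℕ) : Finset ℂ := Polynomial.nthRootsFinset M (1 : ℂ)

theorem mem_mu {M : ℕ} (hM : 0 < M) {z : ℂ} : z ∈ mu M ↔ z ^ M = 1 :=
  Polynomial.mem_nthRootsFinset hM _

theorem norm_mu {M : ℕ} (hM : 0 < M) {z : ℂ} (hz : z ∈ mu M) : ‖z‖ = 1 :=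
  Complex.norm_eq_one_of_pow_eq_one ((mem_mu hM).1 hz) hM.ne'

theorem card_mu {M : ℕ} (hM : 0 < M) : (mu M).card = M :=
  (Complex.isPrimitiveRoot_exp M hM.ne').card_nthRootsFinset

theorem sum_mu_mul {M : ℕ} (hM : 0 < M) {ζ : ℂ} (hζ : ζ ^ M = 1) (g : ℂ → ℂ) :
    ∑ z ∈ mu M, g (ζ * z) = ∑ z ∈ mu M, g z := by
  have hζ0 : ζ ≠ 0 := by
    rintro rfl
    rw [zero_pow hM.ne'] at hζ
    exact zero_ne_one hζ
  refine Finset.sum_nbij' (fun z => ζ * z) (fun z => ζ⁻¹ * z) ?_ ?_ ?_ ?_ ?_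
  · intro z hz
    rw [mem_mu hM] at hz ⊢
    rw [mul_pow, hζ, hz, one_mul]
  · intro z hz
    rw [mem_mu hM] at hz ⊢
    rw [mul_pow, inv_pow, hζ, hz, inv_one, one_mul]
  · intro z _
    rw [← mul_assoc, inv_mul_cancel₀ hζ0, one_mul]
  · intro z _
    rw [← mul_assoc, mul_inv_cancel₀ hζ0, one_mul]
  · intro z _
    rfl

theorem sum_mu_zpow {M : ℕ} (hM : 0 < M) {k : ℤ} (hk : ¬ (M : ℤ) ∣ k) :
    ∑ z ∈ mu M, z ^ k = 0 := by
  have hζ := Complex.isPrimitiveRoot_exp M hM.ne'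
  set ζ := Complex.exp (2 * Real.pi * Complex.I / M) with hζd
  have h1 := sum_mu_mul hM hζ.pow_eq_one (fun z => z ^ k)
  simp only [mul_zpow] at h1
  rw [← Finset.mul_sum] at h1
  have h2 : ζ ^ k ≠ 1 := fun h => hk ((hζ.zpow_eq_one_iff_dvd k).1 h)
  have h3 : (ζ ^ k - 1) * ∑ z ∈ mu M, z ^ k = 0 := by
    rw [sub_mul, h1, one_mul, sub_self]
  rcases mul_eq_zero.1 h3 with h | h
  · exact absurd (sub_eq_zero.1 h) h2
  · exact h

theorem sum_eval {M : ℕ} {P : Polynomial ℂ} (hP : P.natDegree < M) {m : ℕ} (hm : m < M) :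
    ∑ z ∈ mu M, P.eval z * z ^ (-(m : ℤ)) = M * P.coeff m := by
  have hM : 0 < M := by omega
  have h1 : ∀ z ∈ mu M, P.eval z * z ^ (-(m : ℤ)) =
      ∑ i ∈ Finset.range M, P.coeff i * z ^ ((i : ℤ) - m) := by
    intro z hz
    have hz0 : z ≠ 0 := by
      rintro rfl
      have := norm_mu hM hz
      simp at this
    rw [Polynomial.eval_eq_sum_range' hP, Finset.sum_mul]
    refine Finset.sum_congr rfl fun i _ => ?_
    rw [mul_assoc, sub_eq_add_neg, zpow_add₀ hz0, zpow_natCast]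
  rw [Finset.sum_congr rfl h1, Finset.sum_comm, Finset.sum_eq_single m]
  · simp only [sub_self, zpow_zero, mul_one]
    rw [Finset.sum_const, card_mu hM, nsmul_eq_mul]
  · intro i hi him
    rw [← Finset.mul_sum, sum_mu_zpow hM, mul_zero]
    rintro ⟨c, hc⟩
    have hi' := Finset.mem_range.1 hi
    have hc0 : c ≠ 0 := by
      rintro rfl
      apply him
      omega
    have h2 : |(i : ℤ) - m| < M := by
      rw [abs_lt]
      constructor <;> omega
    rw [hc, abs_mul] at h2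
    have h3 : 1 ≤ |c| := Int.one_le_abs hc0
    have h4 : |(M : ℤ)| = M := abs_of_nonneg (by positivity)
    rw [h4] at h2
    nlinarith
  · intro h
    exact absurd (Finset.mem_range.2 hm) h

/-! ## A form along a conic -/

variable {n : ℕ}

/-- The form along the conic with the data `σ`, `w`, as a polynomial. -/
noncomputable def conP (f : MvPolynomial (Fin n) ℝ) (σ : Fin n → ℝ) (w : Fin n → ℂ) :
    Polynomial ℂ :=
  aeval (fun i => Polynomial.C (σ i : ℂ) * Polynomial.X +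
    Polynomial.C ((starRingEnd ℂ) (w i) / 2) * Polynomial.X ^ 2 - Polynomial.C (w i / 2)) f

theorem natDegree_conP {f : MvPolynomial (Fin n) ℝ} {d : ℕ} (hf : f.IsHomogeneous d)
    (σ : Fin n → ℝ) (w : Fin n → ℂ) : (conP f σ w).natDegree ≤ d * 2 := by
  have h1 : conP f σ w = aeval (fun i => Polynomial.C (σ i : ℂ) * Polynomial.X +
    Polynomial.C ((starRingEnd ℂ) (w i) / 2) * Polynomial.X ^ 2 - Polynomial.C (w i / 2))
      (map (algebraMap ℝ ℂ) f) := by
    rw [conP, aeval_map_algebraMap]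
  rw [h1]
  refine aeval_natDegree_le _ ((hf.map _).totalDegree_le) _ fun i => ?_
  compute_degree

theorem aeval_mul_left {L : Type*} [Field L] [Algebra ℝ L] {f : MvPolynomial (Fin n) ℝ} {d : ℕ}
    (hf : f.IsHomogeneous d) (c : L) (x : Fin n → L) :
    aeval (fun i => c * x i) f = c ^ d * aeval x f := by
  rw [aeval_def, aeval_def, eval₂_eq, eval₂_eq, Finset.mul_sum]
  refine Finset.sum_congr rfl fun m hm => ?_
  have h1 : d = ∑ i ∈ m.support, m i := hf.degree_eq_sum_deg_support hm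
  simp only [mul_pow]
  rw [Finset.prod_mul_distrib, Finset.prod_pow_eq_pow_sum, ← h1]
  ring

/-- The point of the conic. -/
noncomputable def conX {L : Type*} [Field L] [Algebra ℝ L] (φ : ℂ →ₐ[ℝ] L) (σ : Fin n → ℝ)
    (w : Fin n → ℂ) (T : L) : Fin n → L :=
  fun i => algebraMap ℝ L (σ i) + (φ ((starRingEnd ℂ) (w i)) * T - φ (w i) * T⁻¹) / 2

theorem eval_conP {L : Type*} [Field L] [Algebra ℝ L] (φ : ℂ →ₐ[ℝ] L)
    {f : MvPolynomial (Fin n) ℝ} {d : ℕ} (hf : f.IsHomogeneous d) (σ : Fin n → ℝ)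
    (w : Fin n → ℂ) {T : L} (hT : T ≠ 0) :
    (conP f σ w).eval₂ (φ : ℂ →+* L) T = T ^ d * aeval (conX φ σ w T) f := by
  have h1 : (conP f σ w).eval₂ (φ : ℂ →+* L) T =
      aeval (fun i => T * conX φ σ w T i) f := by
    have h2 := MvPolynomial.map_aeval (fun i => Polynomial.C (σ i : ℂ) * Polynomial.X +
      Polynomial.C ((starRingEnd ℂ) (w i) / 2) * Polynomial.X ^ 2 - Polynomial.C (w i / 2))
      (Polynomial.eval₂RingHom (φ : ℂ →+* L) T) f
    rw [conP, ← Polynomial.coe_eval₂RingHom, h2, aeval_def]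
    have h3 : (Polynomial.eval₂RingHom (φ : ℂ →+* L) T).comp (algebraMap ℝ (Polynomial ℂ)) =
        algebraMap ℝ L := by
      ext r
      simp [Polynomial.algebraMap_apply]
    rw [h3]
    rw [coe_eval₂Hom]
    congr 1
    funext i
    have h4 : φ (σ i : ℂ) = algebraMap ℝ L (σ i) := φ.commutes (σ i)
    simp only [conX, Polynomial.coe_eval₂RingHom, Polynomial.eval₂_sub, Polynomial.eval₂_add,
      Polynomial.eval₂_mul, Polynomial.eval₂_C, Polynomial.eval₂_X, Polynomial.eval₂_pow,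
      RingHom.coe_coe, map_div₀, map_ofNat, h4]
    field_simp
    ring
  rw [h1, aeval_mul_left hf]

end Pool.Agent.Helper68.Zp
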