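import Mathlib

/-!
# A negative value
-/

set_option autoImplicit false

namespace Pool.Agent.Helper68.Zp

open Polynomial

theorem exists_hasse_neg {d : ℕ} (hd : 0 < d) :
    ∃ x : ℝ, -1 < x ∧ x < 1 ∧ (hasseDeriv d ((X ^ 2 - 1 : ℝ[X]) ^ d)).eval x < 0 := by
  by_contra hcon
  push Not at hcon
  set F : ℝ[X] := (X ^ 2 - 1) ^ d with hF
  set H : ℝ[X] := derivative^[d - 1] F with hH
  have hH' : derivative H = (d.factorial : ℝ) • hasseDeriv d F := by
    have h1 : derivative H = derivative^[d] F := by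
      rw [hH, ← Function.iterate_succ_apply' derivative, Nat.succ_eq_add_one, Nat.sub_add_cancel hd]
    rw [h1]
    have h2 := congrFun (factorial_smul_hasseDeriv (R := ℝ) (k := d)) F
    rw [← h2]
    simp [Nat.cast_smul_eq_nsmul]
  have hF0 : F ≠ 0 := by
    apply pow_ne_zero
    intro h
    have := congrArg (fun p => p.eval 0) h
    simp at this
  have hroot : ∀ t : ℝ, t ^ 2 = 1 → H.eval t = 0 := by
    intro t ht
    have h1 : (X - C t) ^ d ∣ F := by
      refine ⟨(X + C t) ^ d, ?_⟩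
      rw [hF, ← mul_pow]
      congr 1
      have : (C t : ℝ[X]) ^ 2 = 1 := by rw [← C_pow, ht, C_1]
      linear_combination this
    have h2 : d ≤ F.rootMultiplicity t := (le_rootMultiplicity_iff hF0).2 h1
    exact isRoot_iterate_derivative_of_lt_rootMultiplicity (by omega)
  have hmono : MonotoneOn (fun x => H.eval x) (Set.Icc (-1) 1) := by
    refine monotoneOn_of_deriv_nonneg (convex_Icc _ _) H.continuous.continuousOn
      H.differentiable.differentiableOn ?_
    intro x hx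
    rw [interior_Icc] at hx
    rw [Polynomial.deriv, hH', eval_smul, smul_eq_mul]
    exact mul_nonneg (by positivity) (hcon x hx.1 hx.2)
  have hzero : ∀ x ∈ Set.Icc (-1 : ℝ) 1, H.eval x = 0 := by
    intro x hx
    have h1 := hmono (Set.left_mem_Icc.2 (by norm_num)) hx hx.1
    have h2 := hmono hx (Set.right_mem_Icc.2 (by norm_num)) hx.2
    simp only at h1 h2
    rw [hroot (-1) (by norm_num)] at h1
    rw [hroot 1 (by norm_num)] at h2
    exact le_antisymm h2 h1
  have hH0 : H = 0 := by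
    apply Polynomial.eq_zero_of_infinite_isRoot
    refine Set.Infinite.mono hzero (Set.Icc_infinite (by norm_num))
  have h1 := coeff_iterate_derivative (k := d - 1) F (d + 1)
  rw [← hH, hH0, coeff_zero] at h1
  have h2 : d + 1 + (d - 1) = 2 * d := by omega
  rw [h2] at h1
  have h3 : F.coeff (2 * d) = 1 := by
    have h4 : (X ^ 2 - 1 : ℝ[X]).Monic := by monicity!
    have h5 : (X ^ 2 - 1 : ℝ[X]).natDegree = 2 := by compute_degree!
    have h6 : F.Monic := h4.pow d
    have h7 : F.natDegree = 2 * d := by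
      rw [hF, h4.natDegree_pow, h5, mul_comm]
    rw [← h7]
    exact h6.coeff_natDegree
  rw [h3, nsmul_eq_mul, mul_one] at h1
  have h4 : (2 * d).descFactorial (d - 1) ≠ 0 := by
    rw [Ne, Nat.descFactorial_eq_zero_iff_lt]
    omega
  exact h4 (by exact_mod_cast h1.symm)

/-- The coefficient. -/
noncomputable def kap (d : ℕ) (τ : ℝ) : ℝ :=
  ((C τ * X + C (1 / 2) * (X ^ 2 - 1) : ℝ[X]) ^ d).coeff d

theorem exists_kap_neg {d : ℕ} (hd : 0 < d) : ∃ τ : ℝ, kap d τ < 0 := by
  obtain ⟨x, hx1, hx2, hx⟩ := exists_hasse_neg hd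
  set ρ := Real.sqrt (1 - x ^ 2) with hρ
  have h0 : 0 < 1 - x ^ 2 := by nlinarith
  have hρ0 : 0 < ρ := Real.sqrt_pos.2 h0
  have hρ2 : ρ ^ 2 = 1 - x ^ 2 := Real.sq_sqrt h0.le
  refine ⟨x / ρ, ?_⟩
  have h1 : (taylor x ((X ^ 2 - 1 : ℝ[X]) ^ d)).comp (C ρ * X) =
      C ((2 * ρ ^ 2) ^ d) * (C (x / ρ) * X + C (1 / 2) * (X ^ 2 - 1)) ^ d := by
    rw [taylor_apply]
    simp only [pow_comp, sub_comp, X_comp, add_comp, C_comp, one_comp]
    rw [C_pow, ← mul_pow]
    congr 1
    have e1 : (C (x ^ 2) : ℝ[X]) - 1 = - C (ρ ^ 2) := by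
      rw [hρ2, C_sub, C_1]
      ring
    have e2 : (C (2 * ρ ^ 2) : ℝ[X]) * C (x / ρ) = C (2 * (x * ρ)) := by
      rw [← C_mul]
      congr 1
      field_simp
    have e3 : (C (2 * ρ ^ 2) : ℝ[X]) * C (1 / 2) = C (ρ ^ 2) := by
      rw [← C_mul]
      congr 1
      ring
    rw [mul_add, ← mul_assoc, e2, ← mul_assoc (C (2 * ρ ^ 2)) (C (1 / 2)), e3]
    simp only [C_mul, C_pow, C_ofNat] at e1 ⊢
    linear_combination e1
  have h2 := congrArg (fun p : ℝ[X] => p.coeff d) h1
  simp only [comp_C_mul_X_coeff, coeff_C_mul, taylor_coeff] at h2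
  rw [kap]
  have h3 : 0 < (2 * ρ ^ 2) ^ d := by positivity
  have h4 : (hasseDeriv d ((X ^ 2 - 1 : ℝ[X]) ^ d)).eval x * ρ ^ d < 0 :=
    mul_neg_of_neg_of_pos hx (by positivity)
  rw [h2] at h4
  exact neg_of_mul_neg_right h4 h3.le

end Pool.Agent.Helper68.Zp
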