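import Pool.Agent.Helper68.Zp.Forms
import Pool.Agent.Helper68.Zp.Legendre

/-!
# The two kinds of forms
-/

set_option autoImplicit false

namespace Pool.Agent.Helper68.Zp

open MvPolynomial

theorem sum_pow_eq {d M : ℕ} (hd : 0 < d) (hM : d * 2 < M) (τ : ℝ) (u : ℂ) :
    ∑ z ∈ mu M, (((τ * ‖u‖ : ℝ) : ℂ) + ((starRingEnd ℂ) u * z - u * z⁻¹) / 2) ^ d =
      ((M * (‖u‖ ^ d * kap d τ) : ℝ) : ℂ) := by
  have hM0 : 0 < M := by omega
  rcases eq_or_ne u 0 with rfl | hu
  · simp [hd.ne']
  set r := ‖u‖ with hr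
  have hr0 : 0 < r := norm_pos_iff.2 hu
  have hrC : (r : ℂ) ≠ 0 := by exact_mod_cast hr0.ne'
  set v : ℂ := u / r with hv
  have hvu : (r : ℂ) * v = u := by
    rw [hv]
    field_simp
  have hvu' : (r : ℂ) * (starRingEnd ℂ) v = (starRingEnd ℂ) u := by
    rw [← hvu, map_mul, Complex.conj_ofReal]
  have hvn : ‖v‖ = 1 := by
    rw [hv, norm_div, Complex.norm_real, Real.norm_of_nonneg hr0.le, ← hr, div_self hr0.ne']
  have hvv : v * (starRingEnd ℂ) v = 1 := by
    rw [Complex.mul_conj', hvn]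
    simp
  set P : Polynomial ℂ := (Polynomial.C (((τ * r : ℝ) : ℂ)) * Polynomial.X +
    Polynomial.C ((starRingEnd ℂ) u / 2) * Polynomial.X ^ 2 - Polynomial.C (u / 2)) ^ d with hP
  have hdeg : P.natDegree < M := by
    refine lt_of_le_of_lt Polynomial.natDegree_pow_le ?_
    refine lt_of_le_of_lt ?_ hM
    refine Nat.mul_le_mul_left d ?_
    compute_degree
  have h1 := sum_eval hdeg (m := d) (by omega)
  have h2 : ∀ z ∈ mu M, P.eval z * z ^ (-(d : ℤ)) =
      (((τ * r : ℝ) : ℂ) + ((starRingEnd ℂ) u * z - u * z⁻¹) / 2) ^ d := by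
    intro z hz
    have hz0 : z ≠ 0 := by
      rintro rfl
      have := norm_mu hM0 hz
      simp at this
    rw [zpow_neg, zpow_natCast, ← inv_pow, hP, Polynomial.eval_pow, ← mul_pow]
    congr 1
    simp only [Polynomial.eval_sub, Polynomial.eval_add, Polynomial.eval_mul, Polynomial.eval_C,
      Polynomial.eval_X, Polynomial.eval_pow]
    field_simp
    ring
  rw [← Finset.sum_congr rfl h2, h1]
  have h3 : P = Polynomial.C ((r : ℂ) ^ d * v ^ d) *
      (Polynomial.map (algebraMap ℝ ℂ) ((Polynomial.C τ * Polynomial.X +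
        Polynomial.C (1 / 2) * (Polynomial.X ^ 2 - 1)) ^ d)).comp
        (Polynomial.C ((starRingEnd ℂ) v) * Polynomial.X) := by
    rw [Polynomial.map_pow, Polynomial.pow_comp, ← mul_pow, Polynomial.C_pow, ← mul_pow, hP]
    congr 1
    simp only [Polynomial.map_add, Polynomial.map_mul, Polynomial.map_C, Polynomial.map_X,
      Polynomial.map_sub, Polynomial.map_pow, Polynomial.map_one, Polynomial.add_comp,
      Polynomial.mul_comp, Polynomial.C_comp, Polynomial.X_comp, Polynomial.sub_comp,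
      Polynomial.pow_comp, Polynomial.one_comp, Complex.coe_algebraMap]
    have e1 : (Polynomial.C ((r : ℂ) * v) : Polynomial ℂ) * (Polynomial.C (τ : ℂ) *
        (Polynomial.C ((starRingEnd ℂ) v) * Polynomial.X)) =
        Polynomial.C (((τ * r : ℝ) : ℂ)) * Polynomial.X := by
      rw [← mul_assoc, ← mul_assoc, ← Polynomial.C_mul, ← Polynomial.C_mul]
      congr 2
      push_cast
      linear_combination ((r : ℂ) * τ) * hvv
    have e2 : (Polynomial.C ((r : ℂ) * v) : Polynomial ℂ) * Polynomial.C (((1 / 2 : ℝ) : ℂ)) *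
        Polynomial.C ((starRingEnd ℂ) v) ^ 2 = Polynomial.C ((starRingEnd ℂ) u / 2) := by
      rw [← Polynomial.C_pow, ← Polynomial.C_mul, ← Polynomial.C_mul]
      congr 1
      push_cast
      linear_combination ((r : ℂ) * (starRingEnd ℂ) v / 2) * hvv + hvu' / 2
    have e3 : (Polynomial.C ((r : ℂ) * v) : Polynomial ℂ) * Polynomial.C (((1 / 2 : ℝ) : ℂ)) =
        Polynomial.C (u / 2) := by
      rw [← Polynomial.C_mul]
      congr 1
      push_cast
      linear_combination hvu / 2
    linear_combination -e1 - (Polynomial.X ^ 2) * e2 + e3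
  rw [h3, Polynomial.coeff_C_mul, Polynomial.comp_C_mul_X_coeff, Polynomial.coeff_map]
  have h4 : v ^ d * (starRingEnd ℂ) v ^ d = 1 := by rw [← mul_pow, hvv, one_pow]
  rw [← kap]
  rw [Complex.coe_algebraMap]
  push_cast
  linear_combination ((M : ℂ) * (r : ℂ) ^ d * (kap d τ : ℂ)) * h4

/-! ## The sign of a form -/

theorem aeval_real_cont {n : ℕ} (f : MvPolynomial (Fin n) ℝ) :
    Continuous fun y : Fin n → ℝ => aeval y f := by
  have h2 : (fun y : Fin n → ℝ => aeval y f) = fun y => eval y f := by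
    funext y
    exact congrFun (congrArg DFunLike.coe (coe_aeval_eq_eval y)) f
  rw [h2]
  exact MvPolynomial.continuous_eval f

theorem sign_or_zero {m : ℕ} (f : MvPolynomial (Fin (m + 2)) ℝ) :
    (∃ y : Fin (m + 2) → ℝ, y ≠ 0 ∧ aeval y f = 0) ∨
      (∀ y : Fin (m + 2) → ℝ, y ≠ 0 → 0 < aeval y f) ∨
      (∀ y : Fin (m + 2) → ℝ, y ≠ 0 → aeval y f < 0) := by
  by_contra hcon
  push Not at hcon
  obtain ⟨h0, ⟨y₁, hy₁, h1⟩, y₂, hy₂, h2⟩ := hcon
  have hconn : IsPreconnected ({0}ᶜ : Set (Fin (m + 2) → ℝ)) := by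
    refine (isConnected_compl_singleton_of_one_lt_rank ?_ 0).isPreconnected
    rw [rank_fin_fun]
    norm_cast
    omega
  have h3 := hconn.intermediate_value (a := y₁) (b := y₂) hy₁ hy₂
    (aeval_real_cont f).continuousOn
  obtain ⟨y, hy, hy0⟩ := h3 (⟨h1, h2⟩ : (0 : ℝ) ∈ Set.Icc (aeval y₁ f) (aeval y₂ f))
  exact h0 y hy hy0

/-! ## Forms of degree not divisible by four -/

variable {K : Type*} [Field K] [Algebra ℝ K]

theorem zero_of_real {n : ℕ} {f : MvPolynomial (Fin n) ℝ}
    (h : ∃ y : Fin n → ℝ, y ≠ 0 ∧ aeval y f = 0) : ∃ x : Fin n → K, x ≠ 0 ∧ aeval x f = 0 := by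
  obtain ⟨y, hy, hy0⟩ := h
  refine ⟨fun i => algebraMap ℝ K (y i), ?_, ?_⟩
  · intro h
    apply hy
    funext i
    have := congrFun h i
    rwa [Pi.zero_apply, map_eq_zero] at this
  · have h1 : aeval (fun i => algebraMap ℝ K (y i)) f = algebraMap ℝ K (aeval y f) :=
      MvPolynomial.aeval_algebraMap_apply K _ f
    rw [h1, hy0, map_zero]

theorem zero_neg {n : ℕ} {f : MvPolynomial (Fin n) ℝ}
    (h : ∃ x : Fin n → K, x ≠ 0 ∧ aeval x (-f) = 0) : ∃ x : Fin n → K, x ≠ 0 ∧ aeval x f = 0 := by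
  obtain ⟨x, hx, hx0⟩ := h
  refine ⟨x, hx, ?_⟩
  rwa [map_neg, neg_eq_zero] at hx0

theorem zero_of_pos_two {d : ℕ} {f : MvPolynomial (Fin (d + 1)) ℝ} (hf : f.IsHomogeneous d)
    (hd : d % 4 = 2) (hpos : ∀ y : Fin (d + 1) → ℝ, y ≠ 0 → 0 < aeval y f) {a b : K}
    (hab : a ^ 2 + b ^ 2 = -1) : ∃ x : Fin (d + 1) → K, x ≠ 0 ∧ aeval x f = 0 := by
  have hnn : ∀ y : Fin (d + 1) → ℝ, 0 ≤ aeval y f := by
    intro y
    rcases eq_or_ne y 0 with rfl | hy
    · have h1 := aeval_mul_left hf (0 : ℝ) (0 : Fin (d + 1) → ℝ)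
      rw [zero_pow (by omega), zero_mul] at h1
      have h2 : (fun i => (0 : ℝ) * (0 : Fin (d + 1) → ℝ) i) = 0 := by
        funext i
        simp
      rw [h2] at h1
      exact h1.ge
    · exact (hpos y hy).le
  obtain ⟨x, hx, hP⟩ := exists_conP_zero hf (fun x _ => x.1) (by fun_prop) (fun s w ω _ => rfl)
    (hpos _ (by
      intro h
      have := congrFun h 0
      simp at this))
    (fun M hM hM2 w hw => by
      have hM0 : 0 < M := by omega
      set v : ℂ → Fin (d + 1) → ℝ := fun z i => ((starRingEnd ℂ) (w i) * z).im with hv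
      have h1 : ∀ z ∈ mu M, conG f (fun _ => (0 : ℝ)) w z * z ^ (-(0 : ℤ)) =
          ((-(aeval (v z) f) : ℝ) : ℂ) := by
        intro z hz
        have hzi : z⁻¹ = (starRingEnd ℂ) z := Complex.inv_eq_conj (norm_mu hM0 hz)
        have h2 : conX (AlgHom.id ℝ ℂ) (fun _ => (0 : ℝ)) w z =
            fun i => Complex.I * Complex.ofRealAm (v z i) := by
          funext i
          simp only [conX, AlgHom.id_apply, map_zero, zero_add, hzi, hv]
          have h3 : w i * (starRingEnd ℂ) z = (starRingEnd ℂ) ((starRingEnd ℂ) (w i) * z) := by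
            rw [map_mul, Complex.conj_conj]
          rw [h3, Complex.sub_conj]
          simp only [Complex.ofRealAm_coe]
          push_cast
          ring
        have h3 : Complex.I ^ d = -1 := by
          have h4 : d = 4 * (d / 4) + 2 := by omega
          rw [h4, pow_add, pow_mul, Complex.I_pow_four, one_pow, Complex.I_sq, one_mul]
        rw [neg_zero, zpow_zero, mul_one, conG, h2, aeval_mul_left hf, h3,
          ← MvPolynomial.comp_aeval_apply]
        simp
      change (conC f (fun _ => (0 : ℝ)) w M 0).re < 0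
      rw [conC, Finset.sum_congr rfl h1, ← Complex.ofReal_sum, Complex.ofReal_re,
        Finset.sum_neg_distrib, neg_lt_zero]
      have h4 : ∃ z ∈ mu M, v z ≠ 0 := by
        by_contra hcon
        push Not at hcon
        apply hw
        have h5 := hcon 1 ((mem_mu hM0).2 (one_pow M))
        have hζ := Complex.isPrimitiveRoot_exp M hM0.ne'
        set ζ := Complex.exp (2 * Real.pi * Complex.I / M) with hζd
        have h6 := hcon ζ ((mem_mu hM0).2 hζ.pow_eq_one)
        have hζ1 : ζ.im ≠ 0 := by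
          intro h7
          have h8 : ζ = (ζ.re : ℂ) := Complex.ext rfl (by simpa using h7)
          have h9 : ‖ζ‖ = 1 := norm_mu hM0 ((mem_mu hM0).2 hζ.pow_eq_one)
          rw [h8, Complex.norm_real, Real.norm_eq_abs] at h9
          have h10 : ζ ^ 2 = 1 := by
            rw [h8, ← Complex.ofReal_pow, ← sq_abs, h9]
            simp
          have h11 := Nat.le_of_dvd (by norm_num) (hζ.dvd_of_pow_eq_one 2 h10)
          omega
        funext i
        have h7 := congrFun h5 i
        have h8 := congrFun h6 i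
        simp only [hv, Pi.zero_apply, mul_one, Complex.conj_im, neg_eq_zero] at h7
        simp only [hv, Pi.zero_apply, Complex.mul_im, Complex.conj_re, Complex.conj_im, h7,
          neg_zero, zero_mul, add_zero] at h8
        apply Complex.ext
        · rcases mul_eq_zero.1 h8 with h9 | h9
          · exact h9
          · exact absurd h9 hζ1
        · exact h7
      obtain ⟨z, hz, hvz⟩ := h4
      exact Finset.sum_pos' (fun z _ => hnn (v z)) ⟨z, hz, hpos _ hvz⟩)
  refine exists_zero_of_conP hf (σ := fun _ => x.1) (w := x.2) ?_ hP hab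
  by_contra h
  push Not at h
  apply hx
  ext i
  · have := congrFun h.1 0
    simpa using this
  · exact congrFun h.2 i

/-! ## Sums of powers -/

/-- The sum of the `d`-th powers. -/
noncomputable def fermat (n d : ℕ) : MvPolynomial (Fin n) ℝ := ∑ i, X i ^ d

theorem fermat_hom (n d : ℕ) : (fermat n d).IsHomogeneous d :=
  IsHomogeneous.sum _ _ _ fun i _ => isHomogeneous_X_pow i d

theorem aeval_fermat {L : Type*} [CommRing L] [Algebra ℝ L] {n d : ℕ} (x : Fin n → L) :
    aeval x (fermat n d) = ∑ i, x i ^ d := by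
  simp [fermat]

theorem fermat_zero {d : ℕ} (hd : 0 < d) {a b : K} (hab : a ^ 2 + b ^ 2 = -1) :
    ∃ x : Fin (d + 1) → K, x ≠ 0 ∧ ∑ i, x i ^ d = 0 := by
  obtain ⟨τ, hτ⟩ := exists_kap_neg hd
  obtain ⟨x, hx, hP⟩ := exists_conP_zero (fermat_hom (d + 1) d)
    (fun x i => x.1 + τ * ‖x.2 i‖) (by fun_prop)
    (fun s w ω hω => by
      funext i
      simp [hω])
    (by
      rw [aeval_fermat]
      simp
      positivity)
    (fun M hM hM2 w hw => by
      have hM0 : 0 < M := by omega
      have h1 : conC (fermat (d + 1) d) (fun i => (0 : ℝ) + τ * ‖w i‖) w M 0 =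
          ((∑ i, M * (‖w i‖ ^ d * kap d τ) : ℝ) : ℂ) := by
        rw [conC, Complex.ofReal_sum]
        simp only [neg_zero, zpow_zero, mul_one, conG, aeval_fermat]
        rw [Finset.sum_comm]
        refine Finset.sum_congr rfl fun i _ => ?_
        rw [← sum_pow_eq hd hM τ (w i)]
        refine Finset.sum_congr rfl fun z _ => ?_
        simp [conX]
      change (conC (fermat (d + 1) d) (fun i => (0 : ℝ) + τ * ‖w i‖) w M 0).re < 0
      rw [h1, Complex.ofReal_re]
      obtain ⟨i₀, hi₀⟩ := Function.ne_iff.1 hw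
      have hMR : (0 : ℝ) < M := by exact_mod_cast hM0
      refine Finset.sum_neg' (fun i _ => ?_) ⟨i₀, Finset.mem_univ _, ?_⟩
      · exact mul_nonpos_of_nonneg_of_nonpos hMR.le
          (mul_nonpos_of_nonneg_of_nonpos (by positivity) hτ.le)
      · have : 0 < ‖w i₀‖ := norm_pos_iff.2 hi₀
        exact mul_neg_of_pos_of_neg hMR (mul_neg_of_pos_of_neg (by positivity) hτ))
  have h2 := exists_zero_of_conP (K := K) (fermat_hom (d + 1) d) (σ := fun i => x.1 + τ * ‖x.2 i‖)
    (w := x.2) ?_ hP hab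
  · obtain ⟨y, hy, hy0⟩ := h2
    exact ⟨y, hy, by rwa [aeval_fermat] at hy0⟩
  · by_contra h
    push Not at h
    apply hx
    have h3 := h.2
    ext i
    · have := congrFun h.1 0
      simpa [h3] using this
    · exact congrFun h.2 i

end Pool.Agent.Helper68.Zp
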