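import Pool.Agent.Helper68.Zp.Fourier

/-!
# Zeros of real forms over the fields in which `-1` is a sum of two squares
-/

set_option autoImplicit false

namespace Pool.Agent.Helper68.Zp

open MvPolynomial

variable {n : ℕ}

theorem exists_conP_zero {d : ℕ} {f : MvPolynomial (Fin (d + 1)) ℝ} (hf : f.IsHomogeneous d)
    (σ : Esp d → Fin (d + 1) → ℝ) (hσ : Continuous σ)
    (hrot : ∀ (s : ℝ) (w : Fin (d + 1) → ℂ) (ω : ℂ), ‖ω‖ = 1 → σ (s, ω • w) = σ (s, w))
    (htop : 0 < aeval (σ (1, 0)) f)
    (hbase : ∀ M : ℕ, d * 2 < M → Even M → ∀ w : Fin (d + 1) → ℂ, w ≠ 0 →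
      (conC f (σ (0, w)) w M 0).re < 0) :
    ∃ x : Esp d, x ≠ 0 ∧ conP f (σ x) x.2 = 0 := by
  obtain ⟨p, hp, hpp⟩ := Nat.exists_infinite_primes (2 * d + 3)
  have : Fact p.Prime := ⟨hpp⟩
  have hp0 : 0 < p := hpp.pos
  set M := 2 * p with hMd
  have hM : d * 2 < M := by omega
  have hM0 : 0 < M := by omega
  have hM2 : Even M := ⟨p, by omega⟩
  set ω : ℂ := Complex.exp (((2 * Real.pi / p : ℝ) : ℂ) * Complex.I) with hω
  have hωp : ω ^ p = 1 := root_pow hp0 hω
  have hωM : ω ^ M = 1 := by rw [hMd, mul_comm, pow_mul, hωp, one_pow]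
  have hωn : ‖ω‖ = 1 := norm_root hω
  have hωi : ω⁻¹ = (starRingEnd ℂ) ω := Complex.inv_eq_conj hωn
  obtain ⟨x, hx, h0, h1⟩ := borsuk_ulam_poles (p := p) (d := d) (by omega) hω
    (e := fun k => (k : ℕ) + 1)
    (fun k hk => by
      have := Nat.le_of_dvd (Nat.succ_pos _) hk
      have := k.2
      omega)
    (fun x => (conC f (σ x) x.2 M 0).re)
    (fun k x => (starRingEnd ℂ) (conC f (σ x) x.2 M ((k : ℤ) + 1)))
    (Complex.continuous_re.comp (continuous_conC f hσ continuous_snd M 0))
    (fun k => Complex.continuous_conj.comp (continuous_conC f hσ continuous_snd M _))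
    (fun s w => by
      simp only
      rw [hrot s w ω hωn, conC_rot f _ w hM0 hωM 0, neg_zero, zpow_zero, one_mul])
    (fun k s w => by
      simp only
      rw [hrot s w ω hωn, conC_rot f _ w hM0 hωM, map_mul, map_zpow₀, ← hωi, inv_zpow, zpow_neg,
        inv_inv]
      norm_cast)
    (by
      simp only
      have h2 : ∀ z ∈ mu M, conG f (σ (1, 0)) 0 z * z ^ (-(0 : ℤ)) =
          ((aeval (σ (1, 0)) f : ℝ) : ℂ) := by
        intro z _
        have h3 : conX (AlgHom.id ℝ ℂ) (σ (1, 0)) (0 : Fin (d + 1) → ℂ) z =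
            fun i => Complex.ofRealAm (σ (1, 0) i) := by
          funext i
          simp [conX]
        rw [neg_zero, zpow_zero, mul_one, conG, h3, ← MvPolynomial.comp_aeval_apply]
        rfl
      have h3 : conC f (σ (1, 0)) (1, (0 : Fin (d + 1) → ℂ)).2 M 0 =
          ((M * aeval (σ (1, 0)) f : ℝ) : ℂ) := by
        rw [conC, Finset.sum_congr rfl h2, Finset.sum_const, card_mu hM0, nsmul_eq_mul]
        push_cast
        ring
      have h4 : (1 : Esp d) = (1, 1) := rfl
      rw [h3, Complex.ofReal_re]
      have h5 : (0 : ℝ) < M := by exact_mod_cast hM0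
      positivity)
    (fun w hw => hbase M hM hM2 w hw)
  refine ⟨x, hx, conP_eq_zero hf _ _ hM hM2 h0 fun k => ?_⟩
  exact (map_eq_zero (starRingEnd ℂ)).1 (h1 k)

theorem conX_algHom {L : Type*} [Field L] [Algebra ℝ L] (φ : ℂ →ₐ[ℝ] L) (σ : Fin n → ℝ)
    (w : Fin n → ℂ) (T : ℂ) (i : Fin n) :
    conX φ σ w (φ T) i = φ (conX (AlgHom.id ℝ ℂ) σ w T i) := by
  simp only [conX, AlgHom.id_apply, map_add, map_div₀, map_sub, map_mul, map_inv₀, map_ofNat,
    AlgHom.commutes]

theorem aeval_conX_eq_zero {L : Type*} [Field L] [Algebra ℝ L] (φ : ℂ →ₐ[ℝ] L)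
    {f : MvPolynomial (Fin n) ℝ} {d : ℕ} (hf : f.IsHomogeneous d) {σ : Fin n → ℝ}
    {w : Fin n → ℂ} (hP : conP f σ w = 0) {T : L} (hT : T ≠ 0) :
    aeval (conX φ σ w T) f = 0 := by
  have h1 := eval_conP φ hf σ w hT
  rw [hP, Polynomial.eval₂_zero] at h1
  rcases mul_eq_zero.1 h1.symm with h | h
  · exact absurd h (pow_ne_zero _ hT)
  · exact h

theorem exists_zero_of_conP {f : MvPolynomial (Fin n) ℝ} {d : ℕ} (hf : f.IsHomogeneous d)
    {σ : Fin n → ℝ} {w : Fin n → ℂ} (hne : σ ≠ 0 ∨ w ≠ 0) (hP : conP f σ w = 0) {K : Type*}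
    [Field K] [Algebra ℝ K] {a b : K} (hab : a ^ 2 + b ^ 2 = -1) :
    ∃ x : Fin n → K, x ≠ 0 ∧ aeval x f = 0 := by
  by_cases hK : ∃ c : K, c * c = -1
  · obtain ⟨c, hc⟩ := hK
    set φ : ℂ →ₐ[ℝ] K := Complex.lift ⟨c, hc⟩ with hφ
    by_cases h1 : conX (AlgHom.id ℝ ℂ) σ w 1 = 0
    · by_cases h2 : conX (AlgHom.id ℝ ℂ) σ w Complex.I = 0
      · exfalso
        have h3 : σ = 0 := by
          funext i
          have h4 := congrArg Complex.re (congrFun h1 i)
          simpa [conX] using h4
        have h5 : w = 0 := by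
          funext i
          have h6 := congrArg Complex.im (congrFun h1 i)
          have h7 := congrArg Complex.im (congrFun h2 i)
          have h8 : σ i = 0 := congrFun h3 i
          apply Complex.ext
          · simp [conX] at h7
            simp
            linarith
          · simp [conX] at h6
            simp
            linarith
        rcases hne with h | h
        · exact h h3
        · exact h h5
      · refine ⟨conX φ σ w (φ Complex.I), ?_, aeval_conX_eq_zero φ hf hP ?_⟩
        · intro h
          apply h2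
          funext i
          have h3 := congrFun h i
          rw [conX_algHom, Pi.zero_apply, map_eq_zero] at h3
          exact h3
        · rw [Ne, map_eq_zero]
          exact Complex.I_ne_zero
    · refine ⟨conX φ σ w (φ 1), ?_, aeval_conX_eq_zero φ hf hP ?_⟩
      · intro h
        apply h1
        funext i
        have h3 := congrFun h i
        rw [conX_algHom, Pi.zero_apply, map_eq_zero] at h3
        exact h3
      · rw [Ne, map_eq_zero]
        exact one_ne_zero
  · push Not at hK
    set L := AlgebraicClosure K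
    have hL : CharZero L := charZero_of_injective_algebraMap (algebraMap ℝ L).injective
    obtain ⟨c, hc⟩ := IsAlgClosed.exists_eq_mul_self (-1 : L)
    set φ : ℂ →ₐ[ℝ] L := Complex.lift ⟨c, hc.symm⟩ with hφ
    set A := algebraMap K L a with hA
    set B := algebraMap K L b with hB
    have hAB : A ^ 2 + B ^ 2 = -1 := by
      rw [hA, hB, ← map_pow, ← map_pow, ← map_add, hab, map_neg, map_one]
    set T := A + c * B with hTd
    have hTT : T * (-(A - c * B)) = 1 := by
      rw [hTd]
      linear_combination (-1 : L) * hAB - B ^ 2 * hc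
    have hT0 : T ≠ 0 := left_ne_zero_of_mul_eq_one hTT
    have hTi : T⁻¹ = -(A - c * B) := inv_eq_of_mul_eq_one_right hTT
    refine ⟨fun i => algebraMap ℝ K (σ i) + algebraMap ℝ K (w i).re * a +
      algebraMap ℝ K (w i).im * b, ?_, ?_⟩
    · intro h
      have h1 : ∀ i, w i = 0 := by
        intro i
        have h2 := congrFun h i
        simp only [Pi.zero_apply] at h2
        set α := (w i).re
        set β := (w i).im
        have h3 : (algebraMap ℝ K α * b - algebraMap ℝ K β * a) *
            (algebraMap ℝ K α * b - algebraMap ℝ K β * a) =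
            - algebraMap ℝ K (α ^ 2 + β ^ 2 + σ i ^ 2) := by
          rw [map_add, map_add, map_pow, map_pow, map_pow]
          linear_combination (algebraMap ℝ K α ^ 2 + algebraMap ℝ K β ^ 2) * hab -
            (algebraMap ℝ K α * a + algebraMap ℝ K β * b - algebraMap ℝ K (σ i)) * h2
        by_contra hw
        have h4 : 0 < α ^ 2 + β ^ 2 + σ i ^ 2 := by
          by_contra h5
          have h6 : α = 0 := by nlinarith [sq_nonneg α, sq_nonneg β, sq_nonneg (σ i)]
          have h7 : β = 0 := by nlinarith [sq_nonneg α, sq_nonneg β, sq_nonneg (σ i)]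
          exact hw (Complex.ext h6 h7)
        set r := Real.sqrt (α ^ 2 + β ^ 2 + σ i ^ 2) with hr
        have hr0 : r ≠ 0 := (Real.sqrt_pos.2 h4).ne'
        have hr2 : r * r = α ^ 2 + β ^ 2 + σ i ^ 2 := Real.mul_self_sqrt h4.le
        have hr' : algebraMap ℝ K r ≠ 0 := by
          rw [Ne, map_eq_zero]
          exact hr0
        apply hK ((algebraMap ℝ K α * b - algebraMap ℝ K β * a) / algebraMap ℝ K r)
        rw [div_mul_div_comm, h3, ← map_mul, hr2, neg_div, div_self]
        rw [Ne, map_eq_zero]
        exact h4.ne'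
      have h2 : w = 0 := funext h1
      rcases hne with h3 | h3
      · apply h3
        funext i
        have h4 := congrFun h i
        simpa [h1 i] using h4
      · exact h3 h2
    · have h1 := aeval_conX_eq_zero φ hf hP hT0
      have h2 : conX φ σ w T = fun i => algebraMap K L (algebraMap ℝ K (σ i) +
          algebraMap ℝ K (w i).re * a + algebraMap ℝ K (w i).im * b) := by
        funext i
        have h3 : φ (w i) = algebraMap ℝ L (w i).re + algebraMap ℝ L (w i).im * c := by
          rw [hφ, Complex.lift_apply, Complex.liftAux_apply]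
          simp [Algebra.smul_def]
        have h4 : φ ((starRingEnd ℂ) (w i)) =
            algebraMap ℝ L (w i).re - algebraMap ℝ L (w i).im * c := by
          rw [hφ, Complex.lift_apply, Complex.liftAux_apply]
          simp [Algebra.smul_def]
          ring
        have h5 : ∀ r : ℝ, algebraMap K L (algebraMap ℝ K r) = algebraMap ℝ L r := fun r =>
          (IsScalarTower.algebraMap_apply ℝ K L r).symm
        simp only [conX]
        rw [h3, h4, hTi, map_add, map_add, map_mul, map_mul, h5, h5, h5, ← hA, ← hB, hTd]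
        linear_combination (algebraMap ℝ L (w i).im * B) * hc
      have h3 : aeval (fun i => algebraMap K L (algebraMap ℝ K (σ i) +
          algebraMap ℝ K (w i).re * a + algebraMap ℝ K (w i).im * b)) f =
          algebraMap K L (aeval (fun i => algebraMap ℝ K (σ i) +
          algebraMap ℝ K (w i).re * a + algebraMap ℝ K (w i).im * b) f) := by
        exact MvPolynomial.aeval_algebraMap_apply L _ f
      rw [h2, h3, map_eq_zero] at h1
      exact h1

end Pool.Agent.Helper68.Zp
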