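import Pool.Agent.Helper68.Zp.Dft
import Pool.Agent.Helper68.Zp.BU

/-!
# The Fourier coefficients of a form along a conic
-/

set_option autoImplicit false

namespace Pool.Agent.Helper68.Zp

open MvPolynomial

variable {n : ℕ}

/-- The value of the form. -/
noncomputable def conG (f : MvPolynomial (Fin n) ℝ) (σ : Fin n → ℝ) (w : Fin n → ℂ) (z : ℂ) : ℂ :=
  aeval (conX (AlgHom.id ℝ ℂ) σ w z) f

/-- The Fourier coefficients. -/
noncomputable def conC (f : MvPolynomial (Fin n) ℝ) (σ : Fin n → ℝ) (w : Fin n → ℂ) (M : ℕ)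
    (k : ℤ) : ℂ :=
  ∑ z ∈ mu M, conG f σ w z * z ^ (-k)

theorem conX_rot (σ : Fin n → ℝ) (w : Fin n → ℂ) {ω : ℂ} (hω : ‖ω‖ = 1) (z : ℂ) :
    conX (AlgHom.id ℝ ℂ) σ (ω • w) (ω * z) = conX (AlgHom.id ℝ ℂ) σ w z := by
  have h0 : ω ≠ 0 := by
    rintro rfl
    simp at hω
  have h1 : (starRingEnd ℂ) ω * ω = 1 := by
    rw [Complex.conj_mul', hω]
    simp
  funext i
  simp only [conX, AlgHom.id_apply, Pi.smul_apply, smul_eq_mul, map_mul, mul_inv]
  have h2 : (starRingEnd ℂ) ω * (starRingEnd ℂ) (w i) * (ω * z) = (starRingEnd ℂ) (w i) * z := by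
    linear_combination ((starRingEnd ℂ) (w i) * z) * h1
  have h3 : ω * w i * (ω⁻¹ * z⁻¹) = w i * z⁻¹ := by
    field_simp
  rw [h2, h3]

theorem conX_neg (σ : Fin n → ℝ) (w : Fin n → ℂ) {z : ℂ} (hz : ‖z‖ = 1) (i : Fin n) :
    conX (AlgHom.id ℝ ℂ) σ w (-z) i = (starRingEnd ℂ) (conX (AlgHom.id ℝ ℂ) σ w z i) := by
  have h1 : z⁻¹ = (starRingEnd ℂ) z := Complex.inv_eq_conj hz
  simp only [conX, AlgHom.id_apply, map_add, map_div₀, map_sub, map_mul, inv_neg, h1,
    Complex.conj_conj, map_ofNat, Complex.coe_algebraMap, Complex.conj_ofReal]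
  ring

theorem conG_neg (f : MvPolynomial (Fin n) ℝ) (σ : Fin n → ℝ) (w : Fin n → ℂ) {z : ℂ}
    (hz : ‖z‖ = 1) : conG f σ w (-z) = (starRingEnd ℂ) (conG f σ w z) := by
  have h1 : conX (AlgHom.id ℝ ℂ) σ w (-z) =
      fun i => (Complex.conjAe : ℂ →ₐ[ℝ] ℂ) (conX (AlgHom.id ℝ ℂ) σ w z i) := by
    funext i
    rw [conX_neg σ w hz]
    rfl
  rw [conG, h1, conG, ← MvPolynomial.comp_aeval_apply]
  rfl

theorem conC_rot (f : MvPolynomial (Fin n) ℝ) (σ : Fin n → ℝ) (w : Fin n → ℂ) {M : ℕ}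
    (hM : 0 < M) {ω : ℂ} (hω : ω ^ M = 1) (k : ℤ) :
    conC f σ (ω • w) M k = ω ^ (-k) * conC f σ w M k := by
  have hn : ‖ω‖ = 1 := norm_mu hM ((mem_mu hM).2 hω)
  rw [conC, ← sum_mu_mul hM hω, conC, Finset.mul_sum]
  refine Finset.sum_congr rfl fun z _ => ?_
  rw [conG, conX_rot σ w hn, conG, mul_zpow]
  ring

theorem conC_conj (f : MvPolynomial (Fin n) ℝ) (σ : Fin n → ℝ) (w : Fin n → ℂ) {M : ℕ}
    (hM : 0 < M) (hM2 : Even M) (k : ℤ) :
    (starRingEnd ℂ) (conC f σ w M k) = (-1) ^ k * conC f σ w M (-k) := by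
  have h1 : ∀ z ∈ mu M, (starRingEnd ℂ) (conG f σ w z * z ^ (-k)) =
      conG f σ w (-1 * z) * (-1) ^ k * (-1 * z) ^ k := by
    intro z hz
    have hn := norm_mu hM hz
    have h2 : z⁻¹ = (starRingEnd ℂ) z := Complex.inv_eq_conj hn
    have h3 : (-1 : ℂ) ^ k * (-1) ^ k = 1 := by
      rw [← mul_zpow]
      norm_num
    have h4 : (-z) ^ k = (-1) ^ k * z ^ k := by
      rw [← mul_zpow, neg_one_mul]
    rw [map_mul, neg_one_mul, conG_neg f σ w hn, map_zpow₀, ← h2, h4,
      inv_zpow, zpow_neg, inv_inv]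
    linear_combination (-(starRingEnd ℂ) (conG f σ w z) * z ^ k) * h3
  rw [conC, map_sum, Finset.sum_congr rfl h1,
    sum_mu_mul hM (hM2.neg_one_pow) (fun z => conG f σ w z * (-1) ^ k * z ^ k), conC,
    Finset.mul_sum]
  refine Finset.sum_congr rfl fun z _ => ?_
  rw [neg_neg]
  ring

theorem coeff_conP {f : MvPolynomial (Fin n) ℝ} {d : ℕ} (hf : f.IsHomogeneous d)
    (σ : Fin n → ℝ) (w : Fin n → ℂ) {M : ℕ} (hM : d * 2 < M) {m : ℕ} (hm : m < M) :
    (M : ℂ) * (conP f σ w).coeff m = conC f σ w M ((m : ℤ) - d) := by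
  have hM0 : 0 < M := by omega
  rw [← sum_eval (lt_of_le_of_lt (natDegree_conP hf σ w) hM) hm, conC]
  refine Finset.sum_congr rfl fun z hz => ?_
  have hz0 : z ≠ 0 := by
    rintro rfl
    have := norm_mu hM0 hz
    simp at this
  have h1 := eval_conP (AlgHom.id ℝ ℂ) hf σ w hz0
  have h2 : (conP f σ w).eval z = z ^ d * conG f σ w z := by
    rw [conG, ← h1]
    rfl
  rw [h2, neg_sub, sub_eq_add_neg, zpow_add₀ hz0, zpow_natCast]
  ring

theorem conP_eq_zero {f : MvPolynomial (Fin n) ℝ} {d : ℕ} (hf : f.IsHomogeneous d)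
    (σ : Fin n → ℝ) (w : Fin n → ℂ) {M : ℕ} (hM : d * 2 < M) (hM2 : Even M)
    (h0 : (conC f σ w M 0).re = 0) (hk : ∀ k : Fin d, conC f σ w M ((k : ℤ) + 1) = 0) :
    conP f σ w = 0 := by
  have hM0 : 0 < M := by omega
  have h1 : conC f σ w M 0 = 0 := by
    have h2 := conC_conj f σ w hM0 hM2 0
    rw [zpow_zero, one_mul, neg_zero] at h2
    apply Complex.ext
    · rw [h0]
      rfl
    · have := congrArg Complex.im h2
      rw [Complex.conj_im] at this
      simp only [Complex.zero_im]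
      linarith
  have h2 : ∀ k : ℤ, 0 ≤ k → k ≤ d → conC f σ w M k = 0 := by
    intro k hk0 hkd
    rcases hk0.lt_or_eq with h | h
    · have h3 := hk ⟨(k - 1).toNat, by omega⟩
      have h4 : (((⟨(k - 1).toNat, by omega⟩ : Fin d) : ℕ) : ℤ) + 1 = k := by
        simp only
        omega
      rw [h4] at h3
      exact h3
    · rw [← h]
      exact h1
  have h3 : ∀ k : ℤ, -d ≤ k → k ≤ d → conC f σ w M k = 0 := by
    intro k hk0 hkd
    rcases le_or_gt 0 k with h | h
    · exact h2 k h hkd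
    · have h4 := conC_conj f σ w hM0 hM2 (-k)
      rw [h2 (-k) (by omega) (by omega), map_zero, neg_neg] at h4
      have h5 : ((-1 : ℂ)) ^ (-k) ≠ 0 := zpow_ne_zero _ (by norm_num)
      rcases mul_eq_zero.1 h4.symm with h6 | h6
      · exact absurd h6 h5
      · exact h6
  ext m
  rw [Polynomial.coeff_zero]
  rcases le_or_gt m (d * 2) with h | h
  · have h4 := coeff_conP hf σ w hM (m := m) (by omega)
    rw [h3 _ (by omega) (by omega)] at h4
    have h5 : (M : ℂ) ≠ 0 := by exact_mod_cast hM0.ne'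
    rcases mul_eq_zero.1 h4 with h6 | h6
    · exact absurd h6 h5
    · exact h6
  · exact Polynomial.coeff_eq_zero_of_natDegree_lt (lt_of_le_of_lt (natDegree_conP hf σ w) h)

theorem continuous_conC {X : Type*} [TopologicalSpace X] (f : MvPolynomial (Fin n) ℝ)
    {σ : X → Fin n → ℝ} {w : X → Fin n → ℂ} (hσ : Continuous σ) (hw : Continuous w) (M : ℕ)
    (k : ℤ) : Continuous fun x => conC f (σ x) (w x) M k := by
  unfold conC
  refine continuous_finsetSum _ fun z _ => ?_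
  refine Continuous.mul ?_ continuous_const
  unfold conG
  have h1 : Continuous fun x => conX (AlgHom.id ℝ ℂ) (σ x) (w x) z := by
    refine continuous_pi fun i => ?_
    simp only [conX, AlgHom.id_apply]
    have h2 : Continuous fun x => w x i := (continuous_apply i).comp hw
    have h3 : Continuous fun x => σ x i := (continuous_apply i).comp hσ
    have h4 : Continuous fun x => (algebraMap ℝ ℂ) (σ x i) := Complex.continuous_ofReal.comp h3
    have h5 : Continuous fun x => (starRingEnd ℂ) (w x i) := Complex.continuous_conj.comp h2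
    fun_prop
  have h2 : (fun x => aeval (conX (AlgHom.id ℝ ℂ) (σ x) (w x) z) f) =
      fun x => eval (conX (AlgHom.id ℝ ℂ) (σ x) (w x) z) (map (algebraMap ℝ ℂ) f) := by
    funext x
    rw [eval_map, aeval_def]
  rw [h2]
  exact (MvPolynomial.continuous_eval _).comp h1

end Pool.Agent.Helper68.Zp
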