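import Pool.Agent.Helper68.Zp.Cochains

/-!
# Labels, and the norm and difference equations for cochains
-/

set_option autoImplicit false

namespace Pool.Agent.Helper68.Zp

open Finsupp

variable {p : ℕ} [Fact p.Prime] {T : Type*}

/-- The labels: two poles, and for each type a copy of `ℤ/p`. -/
abbrev Lab (p : ℕ) (T : Type*) : Type _ := Bool ⊕ (T × ZMod p)

/-- The shift. -/
def sh (m : ZMod p) : Lab p T → Lab p T
  | .inl b => .inl b
  | .inr (t, a) => .inr (t, a + m)

theorem sh_zero : sh (0 : ZMod p) = (id : Lab p T → Lab p T) := by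
  funext x
  rcases x with b | ⟨t, a⟩ <;> simp [sh]

theorem sh_sh (m n : ZMod p) (x : Lab p T) : sh n (sh m x) = sh (m + n) x := by
  rcases x with b | ⟨t, a⟩ <;> simp [sh, add_assoc]

theorem map_sh_sh (m n : ZMod p) (l : List (Lab p T)) :
    (l.map (sh m)).map (sh n) = l.map (sh (m + n)) := by
  rw [List.map_map]
  congr 1
  funext x
  exact sh_sh m n x

/-- Compatible labels. -/
def Cmp : Lab p T → Lab p T → Prop
  | .inl b, .inl b' => b = b'
  | .inr (t, a), .inr (t', a') => t = t' → a = a'
  | _, _ => True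

theorem Cmp.sh {x y : Lab p T} (h : Cmp x y) (m : ZMod p) : Cmp (sh m x) (sh m y) := by
  rcases x with b | ⟨t, a⟩ <;> rcases y with b' | ⟨t', a'⟩ <;> simp_all [Cmp, Zp.sh]

/-- Lists of compatible labels of a given length. -/
def CL (p : ℕ) (T : Type*) (n : ℕ) : Set (List (Lab p T)) :=
  {l | (∀ x ∈ l, ∀ y ∈ l, Cmp x y) ∧ l.length = n}

theorem CL.sh {n : ℕ} {l : List (Lab p T)} (h : l ∈ CL p T n) (m : ZMod p) :
    l.map (sh m) ∈ CL p T n := by
  refine ⟨?_, by simp [h.2]⟩
  intro x hx y hy
  obtain ⟨u, hu, rfl⟩ := List.mem_map.1 hx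
  obtain ⟨v, hv, rfl⟩ := List.mem_map.1 hy
  exact (h.1 u hu v hv).sh m

/-- The type of a label. -/
def ty : Lab p T → Option T
  | .inl _ => none
  | .inr (t, _) => some t

omit [Fact p.Prime] in
theorem eq_of_ty {x y : Lab p T} (h : Cmp x y) (h' : ty x = ty y) : x = y := by
  rcases x with b | ⟨t, a⟩ <;> rcases y with b' | ⟨t', a'⟩ <;> simp_all [Cmp, ty]

omit [Fact p.Prime] in
theorem CL.length_le [Fintype T] {n : ℕ} {l : List (Lab p T)} (h : l ∈ CL p T n)
    (hl : l.Nodup) : n ≤ Fintype.card T + 1 := by
  have h1 : (l.map ty).Nodup := by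
    refine List.Nodup.map_on ?_ hl
    intro x hx y hy hxy
    exact eq_of_ty (h.1 x hx y hy) hxy
  have h2 := h1.length_le_card
  rw [List.length_map, h.2, Fintype.card_option] at h2
  exact h2

/-- The value of a label. -/
def va : Lab p T → ZMod p
  | .inl _ => 0
  | .inr (_, a) => a

/-- The weight of a label. -/
def wt : Lab p T → ZMod p
  | .inl _ => 0
  | .inr (_, _) => 1

/-- The number of labels which are not poles. -/
def np (l : List (Lab p T)) : ZMod p := (l.map wt).sum

/-- The section. -/
noncomputable def el (l : List (Lab p T)) : ZMod p := (l.map va).sum / np l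

theorem el_perm {l l' : List (Lab p T)} (h : l.Perm l') : el l = el l' := by
  rw [el, el, np, np, (h.map va).sum_eq, (h.map wt).sum_eq]

theorem va_sh (m : ZMod p) (x : Lab p T) : va (sh m x) = va x + wt x * m := by
  rcases x with b | ⟨t, a⟩ <;> simp [va, wt, sh]

theorem wt_sh (m : ZMod p) (x : Lab p T) : wt (sh m x) = wt x := by
  rcases x with b | ⟨t, a⟩ <;> simp [wt, sh]

theorem np_sh (m : ZMod p) (l : List (Lab p T)) : np (l.map (sh m)) = np l := by
  simp only [np, List.map_map]
  congr 2
  funext x
  exact wt_sh m x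

theorem sum_va_sh (m : ZMod p) (l : List (Lab p T)) :
    ((l.map (sh m)).map va).sum = (l.map va).sum + np l * m := by
  induction l with
  | nil => simp [np]
  | cons x l ih =>
    simp only [np, List.map_cons, List.sum_cons] at ih ⊢
    rw [ih, va_sh]
    ring

theorem el_sh {l : List (Lab p T)} (h : np l ≠ 0) (m : ZMod p) :
    el (l.map (sh m)) = el l + m := by
  rw [el, el, np_sh, sum_va_sh]
  field_simp

theorem np_ne_zero {n : ℕ} (hn : n < p) {l : List (Lab p T)} (h : l ∈ CL p T n) (h2 : 2 ≤ n)
    (hl : l.Nodup) : np l ≠ 0 := by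
  have h3 : ∀ l : List (Lab p T), ∃ c : ℕ, c ≤ l.length ∧ np l = c ∧
      (c = 0 → ∀ x ∈ l, ∃ b, x = .inl b) := by
    intro l
    induction l with
    | nil => exact ⟨0, le_rfl, by simp [np], by simp⟩
    | cons x l ih =>
      obtain ⟨c, hc1, hc2, hc3⟩ := ih
      rcases x with b | ⟨t, a⟩
      · refine ⟨c, by simp; omega, ?_, ?_⟩
        · simp only [np, List.map_cons, List.sum_cons, wt, zero_add] at hc2 ⊢
          exact hc2
        · intro h0 x hx
          rcases List.mem_cons.1 hx with rfl | hx
          · exact ⟨b, rfl⟩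
          · exact hc3 h0 x hx
      · refine ⟨c + 1, by simp; omega, ?_, by simp⟩
        simp only [np, List.map_cons, List.sum_cons, wt] at hc2 ⊢
        rw [hc2]
        push_cast
        ring
  obtain ⟨c, hc1, hc2, hc3⟩ := h3 l
  rw [hc2]
  intro h0
  rw [ZMod.natCast_eq_zero_iff] at h0
  rw [h.2] at hc1
  have h4 : c = 0 := Nat.eq_zero_of_dvd_of_lt h0 (lt_of_le_of_lt hc1 hn)
  have h5 := hc3 h4
  rcases l with _ | ⟨x, _ | ⟨y, l⟩⟩
  · simp [CL] at h; omega
  · simp [CL] at h; omega
  · obtain ⟨b, rfl⟩ := h5 x (by simp)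
    obtain ⟨b', rfl⟩ := h5 y (by simp)
    have h6 : b = b' := h.1 (Sum.inl b) (by simp) (Sum.inl b') (by simp)
    subst h6
    simp at hl

/-- Multiplication by a symmetric function. -/
theorem Anti.mul {k : Type*} [CommRing k] {α : Type*} {φ : List α → k} (h : Anti φ)
    {u : List α → k} (hu : ∀ l l' : List α, l.Perm l' → u l = u l') :
    Anti (fun l => u l * φ l) := by
  intro l₁ x y l₂
  have h1 : u (l₁ ++ x :: y :: l₂) = u (l₁ ++ y :: x :: l₂) :=
    hu _ _ ((List.Perm.swap y x l₂).append_left l₁)
  simp only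
  rw [h1, ← mul_add, h, mul_zero]

theorem Anti.map {k : Type*} [CommRing k] {α β : Type*} {φ : List β → k} (h : Anti φ)
    (f : α → β) : Anti (fun l => φ (l.map f)) := by
  intro l₁ x y l₂
  simp only [List.map_append, List.map_cons]
  exact h _ _ _ _

theorem Anti.sum {k : Type*} [CommRing k] {α ι : Type*} {s : Finset ι} {φ : ι → List α → k}
    (h : ∀ i ∈ s, Anti (φ i)) : Anti (fun l => ∑ i ∈ s, φ i l) := by
  intro l₁ x y l₂
  rw [← Finset.sum_add_distrib]
  exact Finset.sum_eq_zero fun i hi => h i hi _ _ _ _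

variable (hp2 : p ≠ 2)

include hp2 in
theorem two_unit : IsUnit (2 : ZMod p) := by
  rw [isUnit_iff_ne_zero]
  intro h
  have h2 : ((2 : ℕ) : ZMod p) = 0 := by exact_mod_cast h
  rw [ZMod.natCast_eq_zero_iff] at h2
  exact hp2 ((Nat.prime_dvd_prime_iff_eq Fact.out Nat.prime_two).1 h2)

/-- Solving the norm equation. -/
theorem solve_norm {n : ℕ} (hn : n < p) (h2 : 2 ≤ n) (hp2 : p ≠ 2) {φ : List (Lab p T) → ZMod p}
    (hφ : Anti φ) (hinv : ∀ l ∈ CL p T n, ∀ m, φ (l.map (sh m)) = φ l) :
    ∃ η : List (Lab p T) → ZMod p, Anti η ∧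
      ∀ l ∈ CL p T n, ∑ m : ZMod p, η (l.map (sh m)) = φ l := by
  classical
  refine ⟨fun l => (if el l = 0 then 1 else 0) * φ l, hφ.mul ?_, ?_⟩
  · intro l l' h
    rw [el_perm h]
  · intro l hl
    by_cases hd : l.Nodup
    · have hne := np_ne_zero hn hl h2 hd
      have h3 : ∀ m : ZMod p, (if el (l.map (sh m)) = 0 then (1 : ZMod p) else 0) *
          φ (l.map (sh m)) = if m = -el l then φ l else 0 := by
        intro m
        rw [hinv l hl m, el_sh hne, ite_mul, one_mul, zero_mul]
        congr 1
        rw [eq_neg_iff_add_eq_zero, add_comm]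
      simp only [h3]
      simp
    · have h3 : ∀ m : ZMod p, φ (l.map (sh m)) = 0 := fun m => by
        rw [hinv l hl m]; exact hφ.eq_zero (two_unit hp2) hd
      simp [h3, hφ.eq_zero (two_unit hp2) hd]

/-- Solving the difference equation. -/
theorem solve_diff {n : ℕ} (hn : n < p) (h2 : 2 ≤ n) (hp2 : p ≠ 2) {φ : List (Lab p T) → ZMod p}
    (hφ : Anti φ) (hnorm : ∀ l ∈ CL p T n, ∑ m : ZMod p, φ (l.map (sh m)) = 0) :
    ∃ η : List (Lab p T) → ZMod p, Anti η ∧
      ∀ l ∈ CL p T n, η (l.map (sh 1)) - η l = φ l := by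
  classical
  refine ⟨fun l => ∑ j ∈ Finset.range p, (if j < (el l).val then 1 else 0) *
    φ (l.map (sh ((j : ZMod p) - el l))), ?_, ?_⟩
  · intro l₁ x y l₂
    have h1 : el (l₁ ++ x :: y :: l₂) = el (l₁ ++ y :: x :: l₂) :=
      el_perm ((List.Perm.swap y x l₂).append_left l₁)
    rw [← Finset.sum_add_distrib]
    refine Finset.sum_eq_zero fun j _ => ?_
    rw [h1, ← mul_add]
    have h2 := hφ.map (sh ((j : ZMod p) - el (l₁ ++ y :: x :: l₂))) l₁ x y l₂
    simp only at h2
    rw [h2, mul_zero]
  · intro l hl
    have h0 : (∀ m, φ (l.map (sh m)) = 0) ∨ np l ≠ 0 := by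
      by_cases hd : l.Nodup
      · exact Or.inr (np_ne_zero hn hl h2 hd)
      · left
        intro m
        refine hφ.eq_zero (two_unit hp2) ?_
        intro h
        exact hd (List.Nodup.of_map _ h)
    rcases h0 with h0 | hne
    · have h1 : φ l = 0 := by
        have := h0 0
        rwa [sh_zero, List.map_id] at this
      simp only [map_sh_sh, h0, h1, mul_zero, Finset.sum_const_zero, sub_zero]
    · simp only [el_sh hne, map_sh_sh]
      have e1 : ∀ j : ℕ, (1 : ZMod p) + ((j : ZMod p) - (el l + 1)) = (j : ZMod p) - el l := by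
        intro j; ring
      simp only [e1]
      rw [← Finset.sum_sub_distrib]
      have hv := ZMod.val_lt (el l)
      have hlast : φ (l.map (sh (((el l).val : ZMod p) - el l))) = φ l := by
        rw [ZMod.natCast_zmod_val, sub_self, sh_zero, List.map_id]
      by_cases hcase : (el l).val + 1 = p
      · have h3 : (el l + 1).val = 0 := by
          rw [ZMod.val_eq_zero]
          have : ((((el l).val + 1 : ℕ)) : ZMod p) = 0 := by rw [hcase]; simp
          rw [Nat.cast_add, ZMod.natCast_zmod_val] at this
          simpa using this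
        have h4 : ∑ j ∈ Finset.range p, φ (l.map (sh ((j : ZMod p) - el l))) = 0 := by
          rw [← hnorm l hl]
          have h5 : ∑ m : ZMod p, φ (l.map (sh m)) =
              ∑ m : ZMod p, φ (l.map (sh (m - el l))) :=
            (Equiv.sum_comp (Equiv.subRight (el l)) (fun m => φ (l.map (sh m)))).symm
          rw [h5]
          refine Finset.sum_bij (fun j _ => (j : ZMod p)) (fun _ _ => Finset.mem_univ _) ?_ ?_ ?_
          · intro a ha b hb hab
            have := congrArg ZMod.val hab
            rwa [ZMod.val_cast_of_lt (Finset.mem_range.1 ha),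
              ZMod.val_cast_of_lt (Finset.mem_range.1 hb)] at this
          · intro m _
            exact ⟨m.val, Finset.mem_range.2 (ZMod.val_lt m), ZMod.natCast_zmod_val m⟩
          · intro a ha
            rfl
        rw [h3]
        have h6 : ∀ j ∈ Finset.range p, ((if j < 0 then (1 : ZMod p) else 0) *
            φ (l.map (sh ((j : ZMod p) - el l))) - (if j < (el l).val then 1 else 0) *
            φ (l.map (sh ((j : ZMod p) - el l)))) =
            (if j = (el l).val then φ l else 0) - φ (l.map (sh ((j : ZMod p) - el l))) := by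
          intro j hj
          have hj' := Finset.mem_range.1 hj
          rw [if_neg (Nat.not_lt_zero j), zero_mul, zero_sub]
          by_cases hj2 : j < (el l).val
          · rw [if_pos hj2, if_neg (by omega)]
            ring
          · have hj3 : j = (el l).val := by omega
            rw [if_neg hj2, if_pos hj3, hj3, hlast]
            ring
        rw [Finset.sum_congr rfl h6, Finset.sum_sub_distrib, h4, sub_zero]
        simp [hv]
      · have h3 : (el l + 1).val = (el l).val + 1 := by
          have hlt : (el l).val + 1 < p := by omega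
          have : el l + 1 = (((el l).val + 1 : ℕ) : ZMod p) := by
            rw [Nat.cast_add, ZMod.natCast_zmod_val, Nat.cast_one]
          rw [this, ZMod.val_cast_of_lt hlt]
        rw [h3]
        have h6 : ∀ j ∈ Finset.range p, ((if j < (el l).val + 1 then (1 : ZMod p) else 0) *
            φ (l.map (sh ((j : ZMod p) - el l))) - (if j < (el l).val then 1 else 0) *
            φ (l.map (sh ((j : ZMod p) - el l)))) =
            (if j = (el l).val then φ l else 0) := by
          intro j hj
          by_cases hj2 : j < (el l).val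
          · rw [if_pos hj2, if_pos (by omega), if_neg (by omega)]
            ring
          · by_cases hj3 : j = (el l).val
            · rw [if_neg hj2, if_pos hj3, if_pos (by omega), hj3, hlast]
              ring
            · rw [if_neg hj2, if_neg hj3, if_neg (by omega)]
              ring
        rw [Finset.sum_congr rfl h6]
        simp [hv]

end Pool.Agent.Helper68.Zp
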